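import Mathlib

namespace Pool.Agent.H28.Clu

open MvPolynomial

section Mutation

variable {V : Type*} [DecidableEq V]

/-- Matrix mutation in direction `k`:
`b'_{ij} = -b_{ij}` if `k ∈ {i, j}`, and `b_{ij} + [b_{ik}]₊ [b_{kj}]₊ - [-b_{ik}]₊ [-b_{kj}]₊`
otherwise. -/
def mutB (B : V → V → ℤ) (k : V) : V → V → ℤ := fun i j =>
  if i = k ∨ j = k then - B i j
  else B i j + max (B i k) 0 * max (B k j) 0 - max (-B i k) 0 * max (-B k j) 0

variable [Fintype V] {F : Type*} [Field F]

/-- The right-hand side of the exchange relation in direction `k`: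
`∏_{b_{ik} > 0} x_i ^ b_{ik} + ∏_{b_{ik} < 0} x_i ^ (-b_{ik})`. -/
def exch (B : V → V → ℤ) (x : V → F) (k : V) : F :=
  ∏ i, x i ^ (B i k).toNat + ∏ i, x i ^ (-B i k).toNat

/-- Mutation of a cluster in direction `k`. -/
def mutX (B : V → V → ℤ) (x : V → F) (k : V) : V → F :=
  Function.update x k (exch B x k / x k)

/-- The cluster obtained from the seed `(x, B)` by mutating successively in the directions listed
in the path. -/
def cl : (V → V → ℤ) → List V → (V → F) → (V → F)
  | _, [], x => x
  | B, k :: p, x => cl (mutB B k) p (mutX B x k)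

/-- The exchange matrix obtained from `B` by mutating along the path. -/
def mat : (V → V → ℤ) → List V → (V → V → ℤ)
  | B, [] => B
  | B, k :: p => mat (mutB B k) p

end Mutation

/-- The subring `ℤ[c_v, c_v⁻¹ : v ∈ V]` of the field `F`. -/
def laurent {V F : Type*} [Field F] (c : V → F) : Subring F :=
  Subring.closure (Set.range c ∪ Set.range (fun v => (c v)⁻¹))

/-- The field `ℚ(x)` of rational functions in the variables `x_v`. -/
abbrev KK (V : Type*) := FractionRing (MvPolynomial V ℤ)

/-- The variables. -/
noncomputable def xx (V : Type*) : V → KK V := fun v => algebraMap (MvPolynomial V ℤ) (KK V) (X v)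

/-- The upper cluster algebra: the intersection of the Laurent rings of all the clusters reachable
from the initial seed by mutation. -/
noncomputable def upper {V : Type*} [Fintype V] [DecidableEq V] (B : V → V → ℤ) :
    Subring (KK V) :=
  ⨅ p : List V, laurent (cl B p (xx V))

/-! ### T-systems -/

/-- The exchange matrix of a quiver without multiple arrows, given by the relation
`arr u v : there is an arrow u → v`: number of arrows `u → v` minus number of arrows `v → u`. -/
def exMat {V : Type*} (arr : V → V → Prop) [DecidableRel arr] : V → V → ℤ := fun u v =>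
  (if arr u v then 1 else 0) - (if arr v u then 1 else 0)

/-- Adjacency matrix of the (undirected, simple) graph on the vertices formed by the arrows which
leave the vertices of colour `c`. -/
def adj {V : Type*} (arr : V → V → Prop) [DecidableRel arr] (ε : V → ℤ) (c : ℤ) : Matrix V V ℤ :=
  fun u v => if (arr u v ∧ ε u = c) ∨ (arr v u ∧ ε v = c) then 1 else 0

/-- Bipartite quivers (no loops, no directed 2-cycles, no multiple arrows, every arrow joins
vertices of different colours `0`, `1`) such that the adjacency matrices of the graph of the arrows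
leaving colour `0` and of the graph of the arrows leaving colour `1` commute. -/
structure IsQuiv {V : Type*} [Fintype V] (arr : V → V → Prop) [DecidableRel arr] (ε : V → ℤ) :
    Prop where
  color : ∀ v, ε v = 0 ∨ ε v = 1
  bip : ∀ u v, arr u v → ε u ≠ ε v
  asym : ∀ u v, arr u v → ¬ arr v u
  comm : adj arr ε 0 * adj arr ε 1 = adj arr ε 1 * adj arr ε 0

/-- `T` is the solution of the T-system of the quiver with initial values `x`, i.e.
`T_v(ε_v) = x_v`, and `T_v(t+1) T_v(t-1) = ∏_{u → v} T_u(t) + ∏_{v → w} T_w(t)` for `t + ε_v` odd.
Only the values `T v t` with `t + ε v` even are constrained (and used). -/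
structure IsT {V F : Type*} [Fintype V] [Field F] (arr : V → V → Prop) [DecidableRel arr]
    (ε : V → ℤ) (x : V → F) (T : V → ℤ → F) : Prop where
  init : ∀ v, T v (ε v) = x v
  rel : ∀ v t, Odd (t + ε v) →
    T v (t + 1) * T v (t - 1) = ∏ u with arr u v, T u t + ∏ w with arr v w, T w t

/-- Conserved quantities: rational functions `F` of the initial values which are unchanged by the
substitutions `x_v ↦ T_v(s + ε_v)`, `s` even. A substitution is the endomorphism `σ` of the field
of rational functions with the given values at the variables. -/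
def Conserved {V : Type*} (ε : V → ℤ) (T : V → ℤ → KK V) (F : KK V) : Prop :=
  ∀ s : ℤ, Even s → ∀ σ : KK V →+* KK V, (∀ v, σ (xx V v) = T v (s + ε v)) → σ F = F

/-- Recurrence data at the vertex `v`: a step `i ≥ 1` (even, so that the values occurring below are
values of the T-system), `N ≥ 0` and conserved quantities `J_0 = 1, J_1, …, J_N, J_{N+1} = 1` with
`∑_k (-1)^k J_k T_v(t + i (N + 1 - k)) = 0` for all `t` with `t + ε_v` even. -/
structure RecData {V : Type*} (ε : V → ℤ) (T : V → ℤ → KK V) (v : V) (i N : ℕ) (J : ℕ → KK V) :
    Prop where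
  pos : 1 ≤ i
  even : Even i
  first : J 0 = 1
  last : J (N + 1) = 1
  cons : ∀ k ≤ N + 1, Conserved ε T (J k)
  recur : ∀ t : ℤ, Even (t + ε v) →
    ∑ k ∈ Finset.range (N + 2), (-1) ^ k * J k * T v (t + i * ((N : ℤ) + 1 - k)) = 0

end Pool.Agent.H28.Clu
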