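import Mathlib
import Pool.Agent.H28.Clu.Defs

namespace Pool.Agent.H28.Clu

section
variable {V : Type*} [DecidableEq V]

theorem mutB_mutB (B : V → V → ℤ) (k : V) : mutB (mutB B k) k = B := by
  funext i j
  unfold mutB
  by_cases h : i = k ∨ j = k
  · rw [if_pos h, if_pos h, neg_neg]
  · rw [if_neg h, if_neg h, if_pos (Or.inr rfl), if_pos (Or.inl rfl), neg_neg, neg_neg]
    ring

theorem mutB_skew {B : V → V → ℤ} (hB : ∀ i j, B j i = - B i j) (k : V) :
    ∀ i j, mutB B k j i = - mutB B k i j := by
  intro i j
  unfold mutB
  by_cases h : i = k ∨ j = k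
  · rw [if_pos h, if_pos h.symm, hB]
  · rw [if_neg h, if_neg (fun h' => h h'.symm), hB i j, hB i k, hB k j, neg_neg, neg_neg]
    ring

theorem mat_skew {B : V → V → ℤ} (hB : ∀ i j, B j i = - B i j) (p : List V) :
    ∀ i j, mat B p j i = - mat B p i j := by
  induction p generalizing B with
  | nil => exact hB
  | cons k p ih => exact ih (mutB_skew hB k)

theorem mat_append (B : V → V → ℤ) (p q : List V) : mat B (p ++ q) = mat (mat B p) q := by
  induction p generalizing B with
  | nil => rfl
  | cons k p ih => exact ih _

theorem mat_reverse (B : V → V → ℤ) (p : List V) : mat (mat B p) p.reverse = B := by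
  induction p generalizing B with
  | nil => rfl
  | cons k p ih =>
    rw [List.reverse_cons, mat_append]
    change mat (mat (mat (mutB B k) p) p.reverse) [k] = B
    rw [ih]
    exact mutB_mutB B k

variable [Fintype V] {F : Type*} [Field F]

theorem cl_append (B : V → V → ℤ) (p q : List V) (x : V → F) :
    cl B (p ++ q) x = cl (mat B p) q (cl B p x) := by
  induction p generalizing B x with
  | nil => rfl
  | cons k p ih => exact ih _ _

theorem exch_mutB (B : V → V → ℤ) (k : V) (hk : B k k = 0) (x : V → F) (y : F) :
    exch (mutB B k) (Function.update x k y) k = exch B x k := by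
  have h1 : ∀ i, mutB B k i k = - B i k := fun i => by unfold mutB; rw [if_pos (Or.inr rfl)]
  unfold exch
  rw [add_comm]
  congr 1
  · refine Finset.prod_congr rfl fun i _ => ?_
    rw [h1, neg_neg]
    by_cases hi : i = k
    · subst hi; rw [hk]; simp
    · rw [Function.update_of_ne hi]
  · refine Finset.prod_congr rfl fun i _ => ?_
    rw [h1]
    by_cases hi : i = k
    · subst hi; rw [hk]; simp
    · rw [Function.update_of_ne hi]

theorem mutX_mutX (B : V → V → ℤ) (k : V) (hk : B k k = 0) (x : V → F) (hx : x k ≠ 0)
    (he : exch B x k ≠ 0) : mutX (mutB B k) (mutX B x k) k = x := by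
  unfold mutX
  rw [exch_mutB B k hk, Function.update_idem, Function.update_self]
  rw [div_div_cancel₀ he, Function.update_eq_self]

/-- A set of nonzero elements closed under addition, multiplication, inversion. -/
structure IsPosCone (P : F → Prop) : Prop where
  one : P 1
  add : ∀ a b, P a → P b → P (a + b)
  mul : ∀ a b, P a → P b → P (a * b)
  inv : ∀ a, P a → P a⁻¹
  ne : ∀ a, P a → a ≠ 0

variable {P : F → Prop}

theorem IsPosCone.pow (h : IsPosCone P) {a : F} (ha : P a) (n : ℕ) : P (a ^ n) := by
  induction n with
  | zero => rw [pow_zero]; exact h.one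
  | succ n ih => rw [pow_succ]; exact h.mul _ _ ih ha

theorem IsPosCone.prod (h : IsPosCone P) {ι : Type*} (s : Finset ι) {f : ι → F}
    (hf : ∀ i ∈ s, P (f i)) : P (∏ i ∈ s, f i) := by
  classical
  induction s using Finset.induction_on with
  | empty => rw [Finset.prod_empty]; exact h.one
  | insert a s ha ih =>
    rw [Finset.prod_insert ha]
    exact h.mul _ _ (hf _ (Finset.mem_insert_self _ _))
      (ih fun i hi => hf i (Finset.mem_insert_of_mem hi))

theorem exch_pos (h : IsPosCone P) (B : V → V → ℤ) {x : V → F} (hx : ∀ i, P (x i)) (k : V) :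
    P (exch B x k) :=
  h.add _ _ (h.prod _ fun i _ => h.pow (hx i) _) (h.prod _ fun i _ => h.pow (hx i) _)

theorem mutX_pos (h : IsPosCone P) (B : V → V → ℤ) {x : V → F} (hx : ∀ i, P (x i)) (k : V) :
    ∀ i, P (mutX B x k i) := by
  intro i
  unfold mutX
  by_cases hi : i = k
  · subst hi
    rw [Function.update_self, div_eq_mul_inv]
    exact h.mul _ _ (exch_pos h B hx _) (h.inv _ (hx _))
  · rw [Function.update_of_ne hi]; exact hx i

theorem cl_pos (h : IsPosCone P) (B : V → V → ℤ) (p : List V) {x : V → F} (hx : ∀ i, P (x i)) :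
    ∀ i, P (cl B p x i) := by
  induction p generalizing B x with
  | nil => exact hx
  | cons k p ih => exact ih _ (mutX_pos h B hx k)

theorem cl_reverse (h : IsPosCone P) {B : V → V → ℤ} (hB : ∀ i j, B j i = - B i j) (p : List V)
    {x : V → F} (hx : ∀ i, P (x i)) : cl (mat B p) p.reverse (cl B p x) = x := by
  induction p generalizing B x with
  | nil => rfl
  | cons k p ih =>
    have hk : B k k = 0 := by have := hB k k; omega
    rw [List.reverse_cons, cl_append]
    change cl (mat (mat (mutB B k) p) p.reverse) [k]
      (cl (mat (mutB B k) p) p.reverse (cl (mutB B k) p (mutX B x k))) = x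
    rw [ih (mutB_skew hB k) (mutX_pos h B hx k), mat_reverse]
    exact mutX_mutX B k hk x (h.ne _ (hx k)) (h.ne _ (exch_pos h B hx k))

theorem map_exch {G : Type*} [Field G] (σ : F →+* G) (B : V → V → ℤ) (x : V → F) (k : V) :
    exch B (fun i => σ (x i)) k = σ (exch B x k) := by
  unfold exch
  simp only [map_add, map_prod, map_pow]

theorem map_cl {G : Type*} [Field G] (σ : F →+* G) (B : V → V → ℤ) (p : List V) (x : V → F)
    (i : V) : cl B p (fun i => σ (x i)) i = σ (cl B p x i) := by
  induction p generalizing B x with
  | nil => rfl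
  | cons k p ih =>
    change cl (mutB B k) p (mutX B (fun i => σ (x i)) k) i = σ (cl (mutB B k) p (mutX B x k) i)
    rw [← ih]
    congr 1
    funext j
    unfold mutX
    by_cases hj : j = k
    · subst hj
      rw [Function.update_self, Function.update_self, map_exch, map_div₀]
    · rw [Function.update_of_ne hj, Function.update_of_ne hj]

theorem isPosCone_real : IsPosCone (fun a : ℝ => 0 < a) where
  one := one_pos
  add _ _ := add_pos
  mul _ _ := mul_pos
  inv _ := inv_pos.2
  ne _ := ne_of_gt

end

end Pool.Agent.H28.Clu
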