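import Mathlib
import Pool.Agent.H28.Clu.Basic

namespace Pool.Agent.H28.Clu

open MvPolynomial

section
variable {V : Type*}

/-- `φ` is the function on the positive orthant given by the rational function `f`. -/
def Rep (f : KK V) (φ : (V → ℝ) → ℝ) : Prop :=
  ∃ p q : MvPolynomial V ℤ, (∀ x : V → ℝ, (∀ i, 0 < x i) → aeval x q ≠ 0) ∧
    f * algebraMap (MvPolynomial V ℤ) (KK V) q = algebraMap (MvPolynomial V ℤ) (KK V) p ∧
    ∀ x : V → ℝ, (∀ i, 0 < x i) → φ x * aeval x q = aeval x p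

theorem ne_zero_of_aeval {q : MvPolynomial V ℤ}
    (h : ∀ x : V → ℝ, (∀ i, 0 < x i) → aeval x q ≠ 0) : q ≠ 0 := by
  rintro rfl
  exact h (fun _ => 1) (fun _ => one_pos) (map_zero _)

theorem algebraMap_ne {q : MvPolynomial V ℤ} (h : q ≠ 0) :
    algebraMap (MvPolynomial V ℤ) (KK V) q ≠ 0 := by
  intro h'
  exact h ((IsFractionRing.injective (MvPolynomial V ℤ) (KK V)) (by rw [h', map_zero]))

theorem eq_zero_of_pos {p : MvPolynomial V ℤ}
    (h : ∀ x : V → ℝ, (∀ i, 0 < x i) → aeval x p = 0) : p = 0 := by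
  refine MvPolynomial.funext_set (fun _ => {n : ℤ | 0 < n}) (fun _ => ?_) ?_
  · exact Set.infinite_of_injective_forall_mem (f := fun n : ℕ => ((n : ℤ) + 1))
      (fun a b hab => by simpa using hab) (fun n => by
        change (0 : ℤ) < (n : ℤ) + 1
        omega)
  · intro x hx
    have h1 := h (fun i => algebraMap ℤ ℝ (x i)) (fun i => by
      have := hx i (Set.mem_univ _)
      simpa using this)
    have h0 : (fun i => algebraMap ℤ ℝ (x i)) = algebraMap ℤ ℝ ∘ x := rfl
    rw [h0, MvPolynomial.aeval_algebraMap_apply] at h1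
    have h2 : (aeval x) p = 0 := by simpa using h1
    rw [map_zero, ← h2]; rfl

theorem Rep.unique {f g : KK V} {φ ψ : (V → ℝ) → ℝ} (hf : Rep f φ) (hg : Rep g ψ)
    (h : ∀ x, (∀ i, 0 < x i) → φ x = ψ x) : f = g := by
  obtain ⟨p, q, hq, h1, h2⟩ := hf
  obtain ⟨p', q', hq', h1', h2'⟩ := hg
  have hz : p * q' - p' * q = 0 := by
    refine eq_zero_of_pos fun x hx => ?_
    rw [map_sub, map_mul, map_mul, ← h2 x hx, ← h2' x hx, h x hx]; ring
  have hz' := congrArg (algebraMap (MvPolynomial V ℤ) (KK V)) hz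
  rw [map_sub, map_mul, map_mul, map_zero, ← h1, ← h1'] at hz'
  have e1 := algebraMap_ne (ne_zero_of_aeval hq)
  have e2 := algebraMap_ne (ne_zero_of_aeval hq')
  have h3 : (f - g) * (algebraMap (MvPolynomial V ℤ) (KK V) q
      * algebraMap (MvPolynomial V ℤ) (KK V) q') = 0 := by
    rw [← hz']; ring
  rcases mul_eq_zero.1 h3 with h4 | h4
  · exact sub_eq_zero.1 h4
  · exact absurd h4 (mul_ne_zero e1 e2)

theorem Rep.congr {f : KK V} {φ ψ : (V → ℝ) → ℝ} (hf : Rep f φ)
    (h : ∀ x, (∀ i, 0 < x i) → φ x = ψ x) : Rep f ψ := by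
  obtain ⟨p, q, hq, h1, h2⟩ := hf
  exact ⟨p, q, hq, h1, fun x hx => by rw [← h x hx]; exact h2 x hx⟩

theorem rep_poly (p : MvPolynomial V ℤ) :
    Rep (algebraMap (MvPolynomial V ℤ) (KK V) p) (fun x => aeval x p) :=
  ⟨p, 1, fun x _ => by rw [map_one]; exact one_ne_zero, by rw [map_one, mul_one],
    fun x _ => by rw [map_one, mul_one]⟩

theorem rep_one : Rep (1 : KK V) (fun _ => 1) := by
  have := rep_poly (V := V) 1
  simpa using this

theorem rep_zero : Rep (0 : KK V) (fun _ => 0) := by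
  have := rep_poly (V := V) 0
  simpa using this

theorem rep_xx (v : V) : Rep (xx V v) (fun x => x v) := by
  have := rep_poly (V := V) (X v)
  simpa [xx] using this

theorem Rep.add {f g : KK V} {φ ψ : (V → ℝ) → ℝ} (hf : Rep f φ) (hg : Rep g ψ) :
    Rep (f + g) (fun x => φ x + ψ x) := by
  obtain ⟨p, q, hq, h1, h2⟩ := hf
  obtain ⟨p', q', hq', h1', h2'⟩ := hg
  refine ⟨p * q' + p' * q, q * q', fun x hx => ?_, ?_, fun x hx => ?_⟩
  · rw [map_mul]; exact mul_ne_zero (hq x hx) (hq' x hx)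
  · simp only [map_mul, map_add]; rw [← h1, ← h1']; ring
  · simp only [map_mul, map_add]; rw [← h2 x hx, ← h2' x hx]; ring

theorem Rep.mul {f g : KK V} {φ ψ : (V → ℝ) → ℝ} (hf : Rep f φ) (hg : Rep g ψ) :
    Rep (f * g) (fun x => φ x * ψ x) := by
  obtain ⟨p, q, hq, h1, h2⟩ := hf
  obtain ⟨p', q', hq', h1', h2'⟩ := hg
  refine ⟨p * p', q * q', fun x hx => ?_, ?_, fun x hx => ?_⟩
  · rw [map_mul]; exact mul_ne_zero (hq x hx) (hq' x hx)
  · simp only [map_mul]; rw [← h1, ← h1']; ring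
  · simp only [map_mul]; rw [← h2 x hx, ← h2' x hx]; ring

theorem Rep.inv {f : KK V} {φ : (V → ℝ) → ℝ} (hf : Rep f φ)
    (hφ : ∀ x, (∀ i, 0 < x i) → φ x ≠ 0) : Rep f⁻¹ (fun x => (φ x)⁻¹) := by
  obtain ⟨p, q, hq, h1, h2⟩ := hf
  have hp : ∀ x : V → ℝ, (∀ i, 0 < x i) → aeval x p ≠ 0 := fun x hx => by
    rw [← h2 x hx]; exact mul_ne_zero (hφ x hx) (hq x hx)
  have hf0 : f ≠ 0 := by
    rintro rfl
    rw [zero_mul] at h1
    exact algebraMap_ne (ne_zero_of_aeval hp) h1.symm
  refine ⟨q, p, hp, ?_, fun x hx => ?_⟩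
  · rw [← h1, inv_mul_cancel_left₀ hf0]
  · rw [← h2 x hx]
    change (φ x)⁻¹ * (φ x * aeval x q) = aeval x q
    rw [inv_mul_cancel_left₀ (hφ x hx)]

theorem Rep.pow {f : KK V} {φ : (V → ℝ) → ℝ} (hf : Rep f φ) (n : ℕ) :
    Rep (f ^ n) (fun x => φ x ^ n) := by
  induction n with
  | zero => simpa using rep_one
  | succ n ih => simpa [pow_succ] using ih.mul hf

theorem Rep.prod {ι : Type*} (s : Finset ι) {f : ι → KK V} {φ : ι → (V → ℝ) → ℝ}
    (hf : ∀ i ∈ s, Rep (f i) (φ i)) : Rep (∏ i ∈ s, f i) (fun x => ∏ i ∈ s, φ i x) := by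
  classical
  induction s using Finset.induction_on with
  | empty => simpa using rep_one
  | insert a s ha ih =>
    have h1 := (hf a (Finset.mem_insert_self _ _)).mul
      (ih fun i hi => hf i (Finset.mem_insert_of_mem hi))
    rw [Finset.prod_insert ha]
    refine h1.congr fun x _ => ?_
    rw [Finset.prod_insert ha]

theorem rep_int (n : ℤ) : Rep (n : KK V) (fun _ => (n : ℝ)) := by
  have := rep_poly (V := V) (C n)
  simpa using this

theorem Rep.aeval {c : V → KK V} {φ : V → (V → ℝ) → ℝ} (hc : ∀ v, Rep (c v) (φ v))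
    (P : MvPolynomial V ℤ) :
    Rep (MvPolynomial.aeval c P) (fun x => MvPolynomial.aeval (fun v => φ v x) P) := by
  induction P using MvPolynomial.induction_on with
  | C a => simpa using rep_int a
  | add p q hp hq => simpa using hp.add hq
  | mul_X p v hp => simpa using hp.mul (hc v)

variable [Fintype V] [DecidableEq V]

theorem Rep.cl {c : V → KK V} {φ : V → (V → ℝ) → ℝ} (B : V → V → ℤ) (p : List V)
    (hc : ∀ v, Rep (c v) (φ v)) (hφ : ∀ v x, (∀ i, 0 < x i) → 0 < φ v x) (i : V) :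
    Rep (cl B p c i) (fun x => Clu.cl B p (fun v => φ v x) i) := by
  induction p generalizing B c φ with
  | nil => exact hc i
  | cons k p ih =>
    refine (ih (mutB B k) (c := mutX B c k)
      (φ := fun v x => mutX B (fun v => φ v x) k v) ?_ ?_)
    · intro v
      unfold mutX
      by_cases hv : v = k
      · subst hv
        simp only [Function.update_self]
        simp only [div_eq_mul_inv]
        refine Rep.mul ?_ ((hc v).inv fun x hx => (hφ v x hx).ne')
        unfold exch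
        exact (Rep.prod _ fun i _ => (hc i).pow _).add (Rep.prod _ fun i _ => (hc i).pow _)
      · simp only [Function.update_of_ne hv]
        exact hc v
    · intro v x hx
      exact mutX_pos isPosCone_real B (fun i => hφ i x hx) k v

/-- The positive elements of the field of rational functions. -/
def PosK (f : KK V) : Prop := ∃ φ, Rep f φ ∧ ∀ x, (∀ i, 0 < x i) → 0 < φ x

omit [Fintype V] [DecidableEq V] in
theorem isPosCone_K : IsPosCone (PosK (V := V)) where
  one := ⟨_, rep_one, fun _ _ => one_pos⟩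
  add := by
    rintro a b ⟨φ, h1, h2⟩ ⟨ψ, h3, h4⟩
    exact ⟨_, h1.add h3, fun x hx => add_pos (h2 x hx) (h4 x hx)⟩
  mul := by
    rintro a b ⟨φ, h1, h2⟩ ⟨ψ, h3, h4⟩
    exact ⟨_, h1.mul h3, fun x hx => mul_pos (h2 x hx) (h4 x hx)⟩
  inv := by
    rintro a ⟨φ, h1, h2⟩
    exact ⟨_, h1.inv fun x hx => (h2 x hx).ne', fun x hx => inv_pos.2 (h2 x hx)⟩
  ne := by
    rintro a ⟨φ, h1, h2⟩ rfl
    obtain ⟨p, q, hq, h3, h4⟩ := h1
    rw [zero_mul] at h3
    have hp : p ≠ 0 := by
      refine ne_zero_of_aeval fun x hx => ?_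
      rw [← h4 x hx]; exact mul_ne_zero (h2 x hx).ne' (hq x hx)
    exact algebraMap_ne hp h3.symm

omit [Fintype V] [DecidableEq V] in
theorem posK_xx (v : V) : PosK (xx V v) := ⟨_, rep_xx v, fun _ hx => hx v⟩

/-- The Laurent phenomenon in the field of rational functions, from its form on the positive
orthant. -/
theorem cl_mem_laurent
    (LP : ∀ (B : V → V → ℤ), (∀ i j, B j i = - B i j) → ∀ (p : List V) (v : V),
      ∃ (P : MvPolynomial V ℤ) (e : V → ℕ), ∀ x : V → ℝ, (∀ i, 0 < x i) →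
        cl B p x v * ∏ i, x i ^ e i = MvPolynomial.aeval x P)
    {B : V → V → ℤ} (hB : ∀ i j, B j i = - B i j) (p q : List V) (v : V) :
    cl B q (xx V) v ∈ laurent (cl B p (xx V)) := by
  set c := cl B p (xx V) with hc
  have h1 : cl B q (xx V) = cl (mat B p) (p.reverse ++ q) c := by
    rw [cl_append, mat_reverse, hc, cl_reverse isPosCone_K hB p posK_xx]
  rw [h1]
  obtain ⟨P, e, hP⟩ := LP (mat B p) (mat_skew hB p) (p.reverse ++ q) v
  have hcR : ∀ v, Rep (c v) (fun x => cl B p x v) := fun v =>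
    Rep.cl B p (fun v => rep_xx v) (fun v x hx => hx v) v
  have hpos : ∀ (v : V) (x : V → ℝ), (∀ i, 0 < x i) → 0 < cl B p x v := fun v x hx =>
    cl_pos isPosCone_real B p hx v
  have h2 : cl (mat B p) (p.reverse ++ q) c v * ∏ i, c i ^ e i = MvPolynomial.aeval c P := by
    refine Rep.unique ((Rep.cl (mat B p) (p.reverse ++ q) hcR hpos v).mul
      (Rep.prod Finset.univ fun i _ => (hcR i).pow (e i))) (Rep.aeval hcR P) ?_
    intro x hx
    exact hP _ fun i => hpos i x hx
  have hne : ∏ i, c i ^ e i ≠ 0 :=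
    isPosCone_K.ne _ (isPosCone_K.prod _ fun i _ =>
      isPosCone_K.pow (cl_pos isPosCone_K B p posK_xx i) _)
  have h3 : cl (mat B p) (p.reverse ++ q) c v = MvPolynomial.aeval c P * ∏ i, (c i)⁻¹ ^ e i := by
    rw [← h2, mul_assoc, ← Finset.prod_mul_distrib]
    rw [Finset.prod_eq_one, mul_one]
    intro i _
    rw [← mul_pow, mul_inv_cancel₀, one_pow]
    exact isPosCone_K.ne _ (cl_pos isPosCone_K B p posK_xx i)
  rw [h3]
  have h5 : ∀ i, (c i)⁻¹ ∈ laurent c := fun i => Subring.subset_closure (Or.inr ⟨i, rfl⟩)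
  refine Subring.mul_mem _ ?_ (prod_mem fun i _ => pow_mem (h5 i) _)
  have h4 : ∀ Q : MvPolynomial V ℤ, MvPolynomial.aeval c Q ∈ laurent c := by
    intro Q
    induction Q using MvPolynomial.induction_on with
    | C a => rw [aeval_C, eq_intCast]; exact intCast_mem _ a
    | add p q hp hq => rw [map_add]; exact Subring.add_mem _ hp hq
    | mul_X p v hp =>
      rw [map_mul, aeval_X]
      exact Subring.mul_mem _ hp (Subring.subset_closure (Or.inl ⟨v, rfl⟩))
  exact h4 P

end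

end Pool.Agent.H28.Clu
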