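import Mathlib
import Pool.Agent.H28.Clu.Transfer

namespace Pool.Agent.H28.Clu

open Polynomial

section
variable {V : Type*} [Fintype V] [DecidableEq V]

omit [DecidableEq V] in
theorem noeth {F : Type*} [Field F] (c : V → F) : IsNoetherianRing (laurent c) := by
  have hfin : (Set.range c ∪ Set.range (fun v => (c v)⁻¹)).Finite :=
    (Set.finite_range c).union (Set.finite_range _)
  have h1 : Algebra.FiniteType ℤ
      (Algebra.adjoin ℤ (Set.range c ∪ Set.range (fun v => (c v)⁻¹))) :=
    (Subalgebra.fg_iff_finiteType _).1 (Subalgebra.fg_def.2 ⟨_, hfin, rfl⟩)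
  have h2 : IsNoetherianRing (Algebra.adjoin ℤ (Set.range c ∪ Set.range (fun v => (c v)⁻¹))) :=
    Algebra.FiniteType.isNoetherianRing ℤ _
  exact isNoetherianRing_of_ringEquiv _
    (Subring.closureEquivAdjoinInt (Set.range c ∪ Set.range (fun v => (c v)⁻¹))).toRingEquiv.symm

/-- An element of `laurent xx` times a power of the product of the variables is a polynomial. -/
theorem exists_clear (z : KK V) (hz : z ∈ laurent (xx V)) :
    ∃ (n : ℕ) (p : MvPolynomial V ℤ),
      z * algebraMap (MvPolynomial V ℤ) (KK V) (∏ i, MvPolynomial.X i) ^ n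
        = algebraMap (MvPolynomial V ℤ) (KK V) p := by
  refine Subring.closure_induction (p := fun z _ => ∃ (n : ℕ) (p : MvPolynomial V ℤ),
      z * algebraMap (MvPolynomial V ℤ) (KK V) (∏ i, MvPolynomial.X i) ^ n
        = algebraMap (MvPolynomial V ℤ) (KK V) p) ?_ ?_ ?_ ?_ ?_ ?_ hz
  · rintro _ (⟨v, rfl⟩ | ⟨v, rfl⟩)
    · exact ⟨0, MvPolynomial.X v, by rw [pow_zero, mul_one]; rfl⟩
    · refine ⟨1, ∏ i ∈ Finset.univ.erase v, MvPolynomial.X i, ?_⟩
      rw [pow_one, ← Finset.mul_prod_erase Finset.univ _ (Finset.mem_univ v), map_mul]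
      change (xx V v)⁻¹ * (xx V v * _) = _
      rw [inv_mul_cancel_left₀ (isPosCone_K.ne _ (posK_xx v))]
  · exact ⟨0, 0, by simp⟩
  · exact ⟨0, 1, by simp⟩
  · rintro x y _ _ ⟨n, p, hp⟩ ⟨m, q, hq⟩
    refine ⟨n + m, p * (∏ i, MvPolynomial.X i) ^ m + q * (∏ i, MvPolynomial.X i) ^ n, ?_⟩
    rw [map_add, map_mul, map_mul, ← hp, ← hq, map_pow, map_pow]
    ring
  · rintro x _ ⟨n, p, hp⟩
    exact ⟨n, -p, by rw [map_neg, ← hp]; ring⟩
  · rintro x y _ _ ⟨n, p, hp⟩ ⟨m, q, hq⟩
    refine ⟨n + m, p * q, ?_⟩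
    rw [map_mul, ← hp, ← hq]
    ring

omit [Fintype V] [DecidableEq V] in
theorem poly_mem (p : MvPolynomial V ℤ) :
    algebraMap (MvPolynomial V ℤ) (KK V) p ∈ laurent (xx V) := by
  induction p using MvPolynomial.induction_on with
  | C a =>
    rw [eq_intCast (MvPolynomial.C (σ := V)) a, map_intCast]
    exact intCast_mem _ a
  | add p q hp hq => rw [map_add]; exact Subring.add_mem _ hp hq
  | mul_X p v hp =>
    rw [map_mul]
    exact Subring.mul_mem _ hp (Subring.subset_closure (Or.inl ⟨v, rfl⟩))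

/-- The ring `laurent xx` is integrally closed. -/
theorem closed_xx (y : KK V) (f : (KK V)[X]) (hf : f.Monic) (hc : ∀ k, f.coeff k ∈ laurent (xx V))
    (hy : f.eval y = 0) : y ∈ laurent (xx V) := by
  set Q : MvPolynomial V ℤ := ∏ i, MvPolynomial.X i with hQ
  have h1 : ∀ k, ∃ n : ℕ, ∃ p : MvPolynomial V ℤ,
      f.coeff k * algebraMap (MvPolynomial V ℤ) (KK V) Q ^ n
        = algebraMap (MvPolynomial V ℤ) (KK V) p := fun k => exists_clear _ (hc k)
  choose n p hp using h1
  let N := (Finset.range (f.natDegree + 1)).sup n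
  have h2 : ∀ k, ∃ q : MvPolynomial V ℤ,
      algebraMap (MvPolynomial V ℤ) (KK V) q
        = algebraMap (MvPolynomial V ℤ) (KK V) (Q ^ N) * f.coeff k := by
    intro k
    by_cases hk : k ≤ f.natDegree
    · have h3 : n k ≤ N := Finset.le_sup (Finset.mem_range.2 (by omega))
      refine ⟨Q ^ (N - n k) * p k, ?_⟩
      rw [map_mul, ← hp, map_pow, map_pow]
      have h4 : N = (N - n k) + n k := by omega
      conv_rhs => rw [h4, pow_add]
      ring
    · refine ⟨0, ?_⟩
      rw [coeff_eq_zero_of_natDegree_lt (by omega), mul_zero, map_zero]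
  have h5 : C (algebraMap (MvPolynomial V ℤ) (KK V) (Q ^ N)) * f
      ∈ lifts (algebraMap (MvPolynomial V ℤ) (KK V)) := by
    rw [lifts_iff_coeff_lifts]
    intro k
    rw [coeff_C_mul]
    exact h2 k
  obtain ⟨g, hg⟩ := (mem_lifts _).1 h5
  have h6 : aeval y g = 0 := by
    rw [aeval_def, eval₂_eq_eval_map, hg, eval_mul, hy, mul_zero]
  have h7 : g.leadingCoeff = Q ^ N := by
    have hinj := IsFractionRing.injective (MvPolynomial V ℤ) (KK V)
    apply hinj
    have h8 : (g.map (algebraMap (MvPolynomial V ℤ) (KK V))).leadingCoeff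
        = algebraMap (MvPolynomial V ℤ) (KK V) g.leadingCoeff :=
      leadingCoeff_map_of_injective hinj g
    rw [← h8, hg, leadingCoeff_mul, hf.leadingCoeff, mul_one, leadingCoeff_C]
  have h9 := den_dvd_of_is_root h6
  rw [h7] at h9
  obtain ⟨e, he⟩ := h9
  have hden : algebraMap (MvPolynomial V ℤ) (KK V)
      (IsFractionRing.den (MvPolynomial V ℤ) y : MvPolynomial V ℤ) ≠ 0 :=
    algebraMap_ne (nonZeroDivisors.ne_zero (IsFractionRing.den (MvPolynomial V ℤ) y).2)
  have h10 : y * algebraMap (MvPolynomial V ℤ) (KK V)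
      (IsFractionRing.den (MvPolynomial V ℤ) y : MvPolynomial V ℤ)
      = algebraMap (MvPolynomial V ℤ) (KK V) (IsFractionRing.num (MvPolynomial V ℤ) y) := by
    have h13 := IsFractionRing.mk'_num_den' (MvPolynomial V ℤ) y
    rw [div_eq_iff hden] at h13
    exact h13.symm
  have hQ' : algebraMap (MvPolynomial V ℤ) (KK V) Q ≠ 0 := by
    rw [hQ, map_prod]
    exact isPosCone_K.ne _ (isPosCone_K.prod _ fun i _ => posK_xx i)
  have h11 : y = algebraMap (MvPolynomial V ℤ) (KK V)
      (IsFractionRing.num (MvPolynomial V ℤ) y * e)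
      * ((algebraMap (MvPolynomial V ℤ) (KK V) Q)⁻¹) ^ N := by
    have h12 : y * algebraMap (MvPolynomial V ℤ) (KK V) Q ^ N
        = algebraMap (MvPolynomial V ℤ) (KK V) (IsFractionRing.num (MvPolynomial V ℤ) y * e) := by
      rw [← map_pow, he, map_mul, map_mul, ← h10, mul_assoc]
    rw [← h12, mul_assoc, ← mul_pow, mul_inv_cancel₀ hQ', one_pow, mul_one]
  rw [h11]
  refine Subring.mul_mem _ (poly_mem _) (Subring.pow_mem _ ?_ _)
  rw [hQ, map_prod, ← Finset.prod_inv_distrib]
  exact prod_mem fun i _ => Subring.subset_closure (Or.inr ⟨i, rfl⟩)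

/-! ### The substitution automorphism attached to a cluster -/

theorem aeval_cl_injective {B : V → V → ℤ} (hB : ∀ i j, B j i = - B i j) (p : List V) :
    Function.Injective (MvPolynomial.aeval (R := ℤ) (cl B p (xx V))).toRingHom := by
  rw [injective_iff_map_eq_zero]
  intro P hP
  refine eq_zero_of_pos fun y hy => ?_
  have h1 : Rep (MvPolynomial.aeval (cl B p (xx V)) P)
      (fun x => MvPolynomial.aeval (fun v => cl B p x v) P) :=
    Rep.aeval (fun v => Rep.cl B p (fun v => rep_xx v) (fun v x hx => hx v) v) P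
  have h2 : MvPolynomial.aeval (cl B p (xx V)) P = 0 := hP
  rw [h2] at h1
  obtain ⟨a, b, hb, h3, h4⟩ := h1
  rw [zero_mul] at h3
  have ha : a = 0 := by
    by_contra h
    exact algebraMap_ne h h3.symm
  have hx : ∀ i, 0 < cl (mat B p) p.reverse y i := cl_pos isPosCone_real _ _ hy
  have h5 := h4 _ hx
  rw [ha, map_zero] at h5
  have h6 := (mul_eq_zero.1 h5).resolve_right (hb _ hx)
  have h7 : cl B p (cl (mat B p) p.reverse y) = y := by
    have := cl_reverse isPosCone_real (mat_skew hB p) p.reverse (x := y) hy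
    rwa [mat_reverse, List.reverse_reverse] at this
  have h8 : (fun v => cl B p (cl (mat B p) p.reverse y) v) = y := h7
  change MvPolynomial.aeval (fun v => cl B p (cl (mat B p) p.reverse y) v) P = 0 at h6
  rwa [h8] at h6

/-- The endomorphism of the field of rational functions with `x_v ↦ c_v`, `c` the cluster reached
by the path `p`. -/
noncomputable def subst {B : V → V → ℤ} (hB : ∀ i j, B j i = - B i j) (p : List V) :
    KK V →+* KK V :=
  IsFractionRing.lift (aeval_cl_injective hB p)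

theorem subst_algebraMap {B : V → V → ℤ} (hB : ∀ i j, B j i = - B i j) (p : List V)
    (P : MvPolynomial V ℤ) : subst hB p (algebraMap (MvPolynomial V ℤ) (KK V) P)
      = MvPolynomial.aeval (cl B p (xx V)) P :=
  IsFractionRing.lift_algebraMap _ _

theorem subst_xx {B : V → V → ℤ} (hB : ∀ i j, B j i = - B i j) (p : List V) (v : V) :
    subst hB p (xx V v) = cl B p (xx V) v := by
  unfold xx
  rw [subst_algebraMap, MvPolynomial.aeval_X]
  rfl

theorem subst_surjective {B : V → V → ℤ} (hB : ∀ i j, B j i = - B i j) (p : List V) :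
    Function.Surjective (subst hB p) := by
  have h1 : ∀ v, ∃ g, subst hB p g = xx V v := by
    intro v
    refine ⟨cl (mat B p) p.reverse (xx V) v, ?_⟩
    rw [← map_cl]
    have h2 : (fun i => subst hB p (xx V i)) = cl B p (xx V) := funext fun i => subst_xx hB p i
    rw [h2, cl_reverse isPosCone_K hB p posK_xx]
  have h2 : ∀ P : MvPolynomial V ℤ, ∃ g, subst hB p g = algebraMap (MvPolynomial V ℤ) (KK V) P := by
    intro P
    induction P using MvPolynomial.induction_on with
    | C a =>
      refine ⟨(a : KK V), ?_⟩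
      rw [map_intCast, eq_intCast (MvPolynomial.C (σ := V)) a, map_intCast]
    | add p q hp hq =>
      obtain ⟨g, hg⟩ := hp
      obtain ⟨g', hg'⟩ := hq
      exact ⟨g + g', by rw [map_add, map_add, hg, hg']⟩
    | mul_X q v hq =>
      obtain ⟨g, hg⟩ := hq
      obtain ⟨g', hg'⟩ := h1 v
      exact ⟨g * g', by rw [map_mul, map_mul, hg, hg']; rfl⟩
  intro f
  obtain ⟨P, Q, hQ, rfl⟩ := IsFractionRing.div_surjective (A := MvPolynomial V ℤ) f
  obtain ⟨g, hg⟩ := h2 P
  obtain ⟨g', hg'⟩ := h2 Q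
  exact ⟨g / g', by rw [map_div₀, hg, hg']⟩

theorem map_laurent {B : V → V → ℤ} (hB : ∀ i j, B j i = - B i j) (p : List V) :
    (laurent (xx V)).map (subst hB p) = laurent (cl B p (xx V)) := by
  unfold laurent
  rw [RingHom.map_closure, Set.image_union, ← Set.range_comp, ← Set.range_comp]
  congr 3
  · funext v; exact subst_xx hB p v
  · funext v
    change subst hB p (xx V v)⁻¹ = _
    rw [map_inv₀, subst_xx]

/-- Every Laurent ring of a reachable cluster is integrally closed. -/
theorem closed_cl {B : V → V → ℤ} (hB : ∀ i j, B j i = - B i j) (p : List V)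
    (y : KK V) (f : (KK V)[X]) (hf : f.Monic) (hc : ∀ k, f.coeff k ∈ laurent (cl B p (xx V)))
    (hy : f.eval y = 0) : y ∈ laurent (cl B p (xx V)) := by
  rw [← map_laurent hB p] at hc ⊢
  let σ : KK V ≃+* KK V := RingEquiv.ofBijective (subst hB p)
    ⟨(subst hB p).injective, subst_surjective hB p⟩
  have hσ : ∀ z, σ z = subst hB p z := fun z => rfl
  refine ⟨σ.symm y, ?_, by rw [← hσ]; exact σ.apply_symm_apply y⟩
  refine closed_xx (σ.symm y) (f.map (σ.symm : KK V →+* KK V)) (hf.map _) ?_ ?_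
  · intro k
    rw [coeff_map]
    obtain ⟨z, hz, hz'⟩ := hc k
    have : (σ.symm : KK V →+* KK V) (f.coeff k) = z := by
      rw [← hz', ← hσ]; exact σ.symm_apply_apply z
    rw [this]; exact hz
  · have h1 : (f.map (σ.symm : KK V →+* KK V)).eval (σ.symm y)
        = (σ.symm : KK V →+* KK V) (f.eval y) := by
      rw [eval_map]
      exact eval₂_at_apply (σ.symm : KK V →+* KK V) y
    rw [h1, hy, map_zero]

/-- A monic factor of a monic polynomial over the Laurent ring of a reachable cluster has its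
coefficients there. -/
theorem coeff_mem_of_dvd {B : V → V → ℤ} (hB : ∀ i j, B j i = - B i j) (p : List V)
    (f : (laurent (cl B p (xx V)))[X]) (hf : f.Monic) (M : (KK V)[X]) (hM : M.Monic)
    (hd : M ∣ f.map (laurent (cl B p (xx V))).subtype) (k : ℕ) :
    M.coeff k ∈ laurent (cl B p (xx V)) := by
  have h1 := integralClosure.mem_lifts_of_monic_of_dvd_map (R := laurent (cl B p (xx V))) (KK V)
    hf hM hd
  rw [lifts_iff_coeff_lifts] at h1
  obtain ⟨z, hz⟩ := h1 k
  have h2 : IsIntegral (laurent (cl B p (xx V))) (M.coeff k) := by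
    rw [← hz]; exact z.2
  obtain ⟨g, hg, hg'⟩ := h2
  refine closed_cl hB p _ (g.map (algebraMap _ (KK V))) (hg.map _) (fun j => ?_) ?_
  · rw [coeff_map]; exact (g.coeff j).2
  · rw [eval_map]; exact hg'

end

end Pool.Agent.H28.Clu
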