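import Mathlib
import Pool.Agent.H28.Clu.Basic

namespace Pool.Agent.H28.Clu

section
variable {V : Type*} [DecidableEq V]

theorem max_sum_step (B : V → V → ℤ) (k : V) (L : List V) (hk : ∀ l ∈ L, B k l = 0)
    (hk' : ∀ l ∈ L, B l k = 0) (hkL : k ∉ L) (i j : V) (l : V) (hl : l ∈ L) :
    mutB B k i l = B i l ∧ mutB B k l j = B l j := by
  have hne : l ≠ k := fun h => hkL (h ▸ hl)
  constructor
  · unfold mutB
    by_cases h : i = k
    · subst h; rw [if_pos (Or.inl rfl), hk l hl]; rfl
    · rw [if_neg (by tauto), hk l hl]; simp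
  · unfold mutB
    by_cases h : j = k
    · subst h; rw [if_pos (Or.inr rfl), hk' l hl]; rfl
    · rw [if_neg (by tauto), hk' l hl]; simp

theorem mat_list (B : V → V → ℤ) (L : List V) (hL : L.Nodup)
    (h0 : ∀ k ∈ L, ∀ l ∈ L, B k l = 0) (i j : V) :
    mat B L i j = if i ∈ L ∨ j ∈ L then - B i j else
      B i j + (L.map fun k => max (B i k) 0 * max (B k j) 0
        - max (-B i k) 0 * max (-B k j) 0).sum := by
  induction L generalizing B with
  | nil => simp [mat]
  | cons k L ih =>
    have hkL : k ∉ L := (List.nodup_cons.1 hL).1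
    have h1 : ∀ l ∈ L, B k l = 0 := fun l hl => h0 k (by simp) l (by simp [hl])
    have h2 : ∀ l ∈ L, B l k = 0 := fun l hl => h0 l (by simp [hl]) k (by simp)
    have step := fun i j l hl => max_sum_step B k L h1 h2 hkL i j l hl
    change mat (mutB B k) L i j = _
    rw [ih (mutB B k) (List.nodup_cons.1 hL).2 (fun a ha b hb => by
      rw [(step a b b hb).1]; exact h0 a (by simp [ha]) b (by simp [hb]))]
    by_cases hij : i ∈ L ∨ j ∈ L
    · rw [if_pos hij, if_pos (by simp only [List.mem_cons]; tauto)]
      rcases hij with hi | hj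
      · rw [(step i j i hi).2]
      · rw [(step i j j hj).1]
    · rw [if_neg hij]
      by_cases hk : i = k ∨ j = k
      · rw [if_pos (by simp only [List.mem_cons]; tauto)]
        have h3 : mutB B k i j = - B i j := by unfold mutB; rw [if_pos hk]
        rw [h3]
        have h4 : (L.map fun l => max (mutB B k i l) 0 * max (mutB B k l j) 0
            - max (-mutB B k i l) 0 * max (-mutB B k l j) 0).sum = 0 := by
          apply List.sum_eq_zero
          intro z hz
          obtain ⟨l, hl, rfl⟩ := List.mem_map.1 hz
          rw [(step i j l hl).1, (step i j l hl).2]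
          rcases hk with rfl | rfl
          · rw [h1 l hl]; simp
          · rw [h2 l hl]; simp
        rw [h4, add_zero]
      · rw [if_neg (by simp only [List.mem_cons]; tauto), List.map_cons, List.sum_cons]
        have h3 : mutB B k i j = B i j + max (B i k) 0 * max (B k j) 0
            - max (-B i k) 0 * max (-B k j) 0 := by unfold mutB; rw [if_neg hk]
        have h4 : (L.map fun l => max (mutB B k i l) 0 * max (mutB B k l j) 0
            - max (-mutB B k i l) 0 * max (-mutB B k l j) 0)
            = L.map fun l => max (B i l) 0 * max (B l j) 0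
            - max (-B i l) 0 * max (-B l j) 0 := by
          apply List.map_congr_left
          intro l hl
          rw [(step i j l hl).1, (step i j l hl).2]
        rw [h3, h4]; ring

variable [Fintype V] {F : Type*} [Field F]

omit [DecidableEq V] in
theorem exch_congr (B B' : V → V → ℤ) (x x' : V → F) (v : V) (hB : ∀ i, B i v = B' i v)
    (hx : ∀ i, B i v ≠ 0 → x i = x' i) : exch B x v = exch B' x' v := by
  unfold exch
  congr 1
  · refine Finset.prod_congr rfl fun i _ => ?_
    rw [← hB]
    by_cases h : B i v = 0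
    · rw [h]; simp
    · rw [hx i h]
  · refine Finset.prod_congr rfl fun i _ => ?_
    rw [← hB]
    by_cases h : B i v = 0
    · rw [h]; simp
    · rw [hx i h]

omit [DecidableEq V] in
theorem exch_neg (B : V → V → ℤ) (x : V → F) (v : V) :
    exch (fun i j => - B i j) x v = exch B x v := by
  unfold exch
  simp only [neg_neg]
  rw [add_comm]

theorem cl_list (B : V → V → ℤ) (L : List V) (hL : L.Nodup)
    (h0 : ∀ k ∈ L, ∀ l ∈ L, B k l = 0) (x : V → F) (v : V) :
    cl B L x v = if v ∈ L then exch B x v / x v else x v := by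
  induction L generalizing B x with
  | nil => simp [cl]
  | cons k L ih =>
    have hkL : k ∉ L := (List.nodup_cons.1 hL).1
    have h1 : ∀ l ∈ L, B k l = 0 := fun l hl => h0 k (by simp) l (by simp [hl])
    have h2 : ∀ l ∈ L, B l k = 0 := fun l hl => h0 l (by simp [hl]) k (by simp)
    have step := fun i j l hl => max_sum_step B k L h1 h2 hkL i j l hl
    change cl (mutB B k) L (mutX B x k) v = _
    rw [ih (mutB B k) (List.nodup_cons.1 hL).2 (fun a ha b hb => by
      rw [(step a b b hb).1]; exact h0 a (by simp [ha]) b (by simp [hb]))]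
    by_cases hv : v ∈ L
    · have hvk : v ≠ k := fun h => hkL (h ▸ hv)
      rw [if_pos hv, if_pos (by simp [hv])]
      have h3 : mutX B x k v = x v := by unfold mutX; rw [Function.update_of_ne hvk]
      rw [h3]
      congr 1
      refine exch_congr _ _ _ _ v (fun i => (step i i v hv).1) fun i hi => ?_
      rw [(step i i v hv).1] at hi
      have hik : i ≠ k := by rintro rfl; exact hi (h1 v hv)
      unfold mutX; rw [Function.update_of_ne hik]
    · rw [if_neg hv]
      by_cases hvk : v = k
      · subst hvk
        rw [if_pos (by simp)]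
        unfold mutX; rw [Function.update_self]
      · rw [if_neg (by simp [hv, hvk])]
        unfold mutX; rw [Function.update_of_ne hvk]

variable {arr : V → V → Prop} [DecidableRel arr] {ε : V → ℤ}

/-- The list of the vertices of colour `c`. -/
noncomputable def col (ε : V → ℤ) (c : ℤ) : List V := (Finset.univ.filter fun v => ε v = c).toList

omit [DecidableEq V] in
theorem mem_col (c : ℤ) (v : V) : v ∈ col ε c ↔ ε v = c := by
  unfold col; simp

omit [DecidableEq V] in
theorem nodup_col (c : ℤ) : (col ε c).Nodup := Finset.nodup_toList _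

omit [DecidableEq V] [Fintype V] in
theorem exMat_skew (arr : V → V → Prop) [DecidableRel arr] (i j : V) :
    exMat arr j i = - exMat arr i j := by unfold exMat; ring

theorem exMat_col (h : IsQuiv arr ε) {i j : V} (hij : ε i = ε j) : exMat arr i j = 0 := by
  unfold exMat
  rw [if_neg (fun h' => h.bip i j h' hij), if_neg (fun h' => h.bip j i h' hij.symm), sub_zero]

theorem mat_col (h : IsQuiv arr ε) (c : ℤ) (hc : c = 0 ∨ c = 1) :
    mat (exMat arr) (col ε c) = fun i j => - exMat arr i j := by
  funext i j
  rw [mat_list _ _ (nodup_col c) (fun k hk l hl => exMat_col h (by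
    rw [mem_col] at hk hl; rw [hk, hl]))]
  by_cases hij : i ∈ col ε c ∨ j ∈ col ε c
  · rw [if_pos hij]
  · rw [if_neg hij]
    rw [mem_col, mem_col, not_or] at hij
    have hE : ε i = ε j := by
      rcases h.color i with h1 | h1 <;> rcases h.color j with h2 | h2 <;> rcases hc with h3 | h3 <;>
        omega
    rw [exMat_col h hE, neg_zero, zero_add]
    unfold col
    rw [Finset.sum_map_toList, Finset.sum_filter]
    have key : ∀ c' : ℤ, c' = ε i → c' ≠ c → (adj arr ε c' * adj arr ε c = adj arr ε c * adj arr ε c') →
        (∑ k, if ε k = c then max (exMat arr i k) 0 * max (exMat arr k j) 0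
          - max (-exMat arr i k) 0 * max (-exMat arr k j) 0 else 0) = 0 := by
      intro c' hc' hne hcomm
      have h5 : (adj arr ε c' * adj arr ε c) i j - (adj arr ε c * adj arr ε c') i j = 0 := by
        rw [hcomm, sub_self]
      rw [Matrix.mul_apply, Matrix.mul_apply, ← Finset.sum_sub_distrib] at h5
      refine Eq.trans (Finset.sum_congr rfl fun k _ => ?_) h5
      clear h5
      by_cases hk : ε k = c
      · rw [if_pos hk]
        have hi : ε i ≠ c := fun h' => hij.1 h'
        have hj : ε j ≠ c := fun h' => hij.2 h'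
        have hkc : ε k ≠ c' := by rw [hk]; exact hne.symm
        have v1 : max (exMat arr i k) 0 = adj arr ε c' i k := by
          unfold exMat adj
          by_cases b1 : arr i k
          · have b2 := h.asym _ _ b1
            rw [if_pos b1, if_neg b2, if_pos (Or.inl ⟨b1, hc'.symm⟩)]; rfl
          · rw [if_neg b1, if_neg (not_or.2 ⟨fun h' => b1 h'.1, fun h' => hkc h'.2⟩)]
            by_cases b2 : arr k i
            · rw [if_pos b2]; rfl
            · rw [if_neg b2]; rfl
        have v2 : max (exMat arr k j) 0 = adj arr ε c k j := by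
          unfold exMat adj
          by_cases b1 : arr k j
          · have b2 := h.asym _ _ b1
            rw [if_pos b1, if_neg b2, if_pos (Or.inl ⟨b1, hk⟩)]; rfl
          · rw [if_neg b1, if_neg (not_or.2 ⟨fun h' => b1 h'.1, fun h' => hj h'.2⟩)]
            by_cases b2 : arr j k
            · rw [if_pos b2]; rfl
            · rw [if_neg b2]; rfl
        have v3 : max (-exMat arr i k) 0 = adj arr ε c i k := by
          unfold exMat adj
          by_cases b1 : arr k i
          · have b2 := h.asym _ _ b1
            rw [if_pos b1, if_neg b2, if_pos (Or.inr ⟨b1, hk⟩)]; rfl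
          · rw [if_neg b1, if_neg (not_or.2 ⟨fun h' => hi h'.2, fun h' => b1 h'.1⟩)]
            by_cases b2 : arr i k
            · rw [if_pos b2]; rfl
            · rw [if_neg b2]; rfl
        have v4 : max (-exMat arr k j) 0 = adj arr ε c' k j := by
          unfold exMat adj
          by_cases b1 : arr j k
          · have b2 := h.asym _ _ b1
            rw [if_pos b1, if_neg b2, if_pos (Or.inr ⟨b1, by rw [hc', hE]⟩)]; rfl
          · rw [if_neg b1, if_neg (not_or.2 ⟨fun h' => hkc h'.2, fun h' => b1 h'.1⟩)]
            by_cases b2 : arr k j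
            · rw [if_pos b2]; rfl
            · rw [if_neg b2]; rfl
        rw [v1, v2, v3, v4]
      · rw [if_neg hk]
        have hki : ε k = ε i := by
          rcases h.color i with h1 | h1 <;> rcases h.color k with h2 | h2 <;>
            rcases hc with h3 | h3 <;> omega
        have e1 : ¬ arr i k := fun h' => h.bip _ _ h' hki.symm
        have e2 : ¬ arr k i := fun h' => h.bip _ _ h' hki
        have e3 : ∀ d, adj arr ε d i k = 0 := fun d => by
          unfold adj
          rw [if_neg (not_or.2 ⟨fun h' => e1 h'.1, fun h' => e2 h'.1⟩)]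
        rw [e3, e3, zero_mul, zero_mul, sub_zero]
    rcases hc with rfl | rfl
    · exact key 1 (by rcases h.color i with h1 | h1 <;> omega) (by norm_num) h.comm.symm
    · exact key 0 (by rcases h.color i with h1 | h1 <;> omega) (by norm_num) h.comm

theorem exch_exMat (h : IsQuiv arr ε) (y : V → F) (v : V) :
    exch (exMat arr) y v = ∏ u with arr u v, y u + ∏ w with arr v w, y w := by
  unfold exch exMat
  rw [Finset.prod_filter, Finset.prod_filter]
  congr 1
  · refine Finset.prod_congr rfl fun i _ => ?_
    by_cases h1 : arr i v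
    · have h2 := h.asym _ _ h1
      simp [h1, h2]
    · by_cases h2 : arr v i <;> simp [h1, h2]
  · refine Finset.prod_congr rfl fun i _ => ?_
    by_cases h1 : arr v i
    · have h2 := h.asym _ _ h1
      simp [h1, h2]
    · by_cases h2 : arr i v <;> simp [h1, h2]

/-- The cluster of T-system values at time `t`. -/
def st (ε : V → ℤ) (T : V → ℤ → F) (t : ℤ) : V → F := fun v =>
  if (t + ε v) % 2 = 0 then T v t else T v (t + 1)

variable {x : V → F} {T : V → ℤ → F}

theorem step_aux (h : IsQuiv arr ε) (hT : IsT arr ε x T) (B' : V → V → ℤ)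
    (hB' : B' = exMat arr ∨ B' = fun i j => - exMat arr i j) (t c : ℤ)
    (htc : Even (t + c)) (y : V → F) (hy : ∀ u, ε u ≠ c → y u = T u (t + 1)) (v : V) :
    cl B' (col ε c) y v = if ε v = c then T v (t + 2) * T v t / y v else T v (t + 1) := by
  have hz : ∀ k ∈ col ε c, ∀ l ∈ col ε c, B' k l = 0 := by
    intro k hk l hl
    rw [mem_col] at hk hl
    have := exMat_col h (hk.trans hl.symm)
    rcases hB' with rfl | rfl
    · exact this
    · change - exMat arr k l = 0
      rw [this, neg_zero]
  rw [cl_list B' _ (nodup_col c) hz]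
  have hex : exch B' y v = exch (exMat arr) y v := by
    rcases hB' with rfl | rfl
    · rfl
    · exact exch_neg _ _ _
  rw [hex, exch_exMat h]
  by_cases hv : ε v = c
  · rw [if_pos ((mem_col c v).2 hv), if_pos hv]
    have hr := hT.rel v (t + 1) (by
      rw [hv, Int.odd_iff]; rw [Int.even_iff] at htc; omega)
    have e6 : ∏ u with arr u v, y u = ∏ u with arr u v, T u (t + 1) :=
      Finset.prod_congr rfl fun u hu => hy u (by
        rw [← hv]; exact h.bip _ _ (Finset.mem_filter.1 hu).2)
    have e7 : ∏ w with arr v w, y w = ∏ w with arr v w, T w (t + 1) :=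
      Finset.prod_congr rfl fun u hu => hy u (by
        rw [← hv]; exact (h.bip _ _ (Finset.mem_filter.1 hu).2).symm)
    rw [e6, e7, ← hr, add_sub_cancel_right, show t + 1 + 1 = t + 2 by ring]
  · rw [if_neg (fun h' => hv ((mem_col c v).1 h')), if_neg hv]
    exact hy v hv

theorem step_up (h : IsQuiv arr ε) (hT : IsT arr ε x T) (B' : V → V → ℤ)
    (hB' : B' = exMat arr ∨ B' = fun i j => - exMat arr i j) (t c : ℤ) (hc : c = 0 ∨ c = 1)
    (htc : Even (t + c)) (h0 : ∀ v, st ε T t v ≠ 0) :
    cl B' (col ε c) (st ε T t) = st ε T (t + 1) := by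
  rw [Int.even_iff] at htc
  funext v
  rw [step_aux h hT B' hB' t c (by rw [Int.even_iff]; exact htc)]
  · have h0v := h0 v
    unfold st at h0v ⊢
    rcases h.color v with hv | hv <;> rcases hc with rfl | rfl
    · have e1 : (t + ε v) % 2 = 0 := by omega
      have e2 : ¬ (t + 1 + ε v) % 2 = 0 := by omega
      rw [if_pos hv, if_pos e1, if_neg e2, show t + 1 + 1 = t + 2 by ring]
      rw [if_pos e1] at h0v
      field_simp
    · have e1 : (t + 1 + ε v) % 2 = 0 := by omega
      rw [if_neg (by omega), if_pos e1]
    · have e1 : (t + 1 + ε v) % 2 = 0 := by omega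
      rw [if_neg (by omega), if_pos e1]
    · have e1 : (t + ε v) % 2 = 0 := by omega
      have e2 : ¬ (t + 1 + ε v) % 2 = 0 := by omega
      rw [if_pos hv, if_pos e1, if_neg e2, show t + 1 + 1 = t + 2 by ring]
      rw [if_pos e1] at h0v
      field_simp
  · intro u hu
    unfold st
    rcases h.color u with hv | hv <;> rcases hc with rfl | rfl
    · exact absurd hv hu
    · rw [if_neg (by omega)]
    · rw [if_neg (by omega)]
    · exact absurd hv hu

theorem step_down (h : IsQuiv arr ε) (hT : IsT arr ε x T) (B' : V → V → ℤ)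
    (hB' : B' = exMat arr ∨ B' = fun i j => - exMat arr i j) (t c : ℤ) (hc : c = 0 ∨ c = 1)
    (htc : Even (t + c)) (h0 : ∀ v, st ε T (t + 1) v ≠ 0) :
    cl B' (col ε c) (st ε T (t + 1)) = st ε T t := by
  rw [Int.even_iff] at htc
  funext v
  rw [step_aux h hT B' hB' t c (by rw [Int.even_iff]; exact htc)]
  · have h0v := h0 v
    unfold st at h0v ⊢
    rcases h.color v with hv | hv <;> rcases hc with rfl | rfl
    · have e1 : (t + ε v) % 2 = 0 := by omega
      have e2 : ¬ (t + 1 + ε v) % 2 = 0 := by omega
      rw [if_pos hv, if_pos e1, if_neg e2, show t + 1 + 1 = t + 2 by ring]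
      rw [if_neg e2, show t + 1 + 1 = t + 2 by ring] at h0v
      field_simp
    · have e1 : ¬ (t + ε v) % 2 = 0 := by omega
      rw [if_neg (by omega), if_neg e1]
    · have e1 : ¬ (t + ε v) % 2 = 0 := by omega
      rw [if_neg (by omega), if_neg e1]
    · have e1 : (t + ε v) % 2 = 0 := by omega
      have e2 : ¬ (t + 1 + ε v) % 2 = 0 := by omega
      rw [if_pos hv, if_pos e1, if_neg e2, show t + 1 + 1 = t + 2 by ring]
      rw [if_neg e2, show t + 1 + 1 = t + 2 by ring] at h0v
      field_simp
  · intro u hu
    unfold st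
    rcases h.color u with hv | hv <;> rcases hc with rfl | rfl
    · exact absurd hv hu
    · rw [if_pos (by omega)]
    · rw [if_pos (by omega)]
    · exact absurd hv hu

/-- Paths of mutations going up along the belt. -/
noncomputable def bup (ε : V → ℤ) : ℕ → List V
  | 0 => []
  | n + 1 => bup ε n ++ col ε ((n : ℤ) % 2)

/-- Paths of mutations going down along the belt. -/
noncomputable def bdown (ε : V → ℤ) : ℕ → List V
  | 0 => []
  | n + 1 => bdown ε n ++ col ε (((n : ℤ) + 1) % 2)

theorem mat_step (h : IsQuiv arr ε) (B' : V → V → ℤ)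
    (hB' : B' = exMat arr ∨ B' = fun i j => - exMat arr i j) (c : ℤ) (hc : c = 0 ∨ c = 1) :
    mat B' (col ε c) = exMat arr ∨ mat B' (col ε c) = fun i j => - exMat arr i j := by
  rcases hB' with rfl | rfl
  · exact Or.inr (mat_col h c hc)
  · left
    have h1 := mat_reverse (exMat arr) (col ε c)
    rw [mat_col h c hc] at h1
    have hz : ∀ k ∈ col ε c, ∀ l ∈ col ε c, - exMat arr k l = 0 := by
      intro k hk l hl
      rw [mem_col] at hk hl
      rw [exMat_col h (hk.trans hl.symm), neg_zero]
    have hz' : ∀ k ∈ (col ε c).reverse, ∀ l ∈ (col ε c).reverse, - exMat arr k l = 0 := by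
      intro k hk l hl
      exact hz k (List.mem_reverse.1 hk) l (List.mem_reverse.1 hl)
    have h2 : mat (fun i j => - exMat arr i j) (col ε c)
        = mat (fun i j => - exMat arr i j) (col ε c).reverse := by
      funext i j
      rw [mat_list _ _ (nodup_col c) hz, mat_list _ _ (List.nodup_reverse.2 (nodup_col c)) hz']
      simp only [List.mem_reverse, List.map_reverse, List.sum_reverse]
    rw [h2, h1]

theorem bup_spec (h : IsQuiv arr ε) {P : F → Prop} (hP : IsPosCone P) (hT : IsT arr ε x T)
    (hx : ∀ v, P (x v)) (n : ℕ) :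
    (mat (exMat arr) (bup ε n) = exMat arr ∨
      mat (exMat arr) (bup ε n) = fun i j => - exMat arr i j) ∧
    cl (exMat arr) (bup ε n) x = st ε T n := by
  induction n with
  | zero =>
    refine ⟨Or.inl rfl, ?_⟩
    funext v
    change x v = _
    unfold st
    rcases h.color v with hv | hv
    · rw [if_pos (by rw [hv]; decide), ← hT.init v, hv]; rfl
    · rw [if_neg (by rw [hv]; decide), ← hT.init v, hv]; rfl
  | succ n ih =>
    have hc : ((n : ℤ) % 2) = 0 ∨ ((n : ℤ) % 2) = 1 := by omega
    refine ⟨?_, ?_⟩
    · change mat _ (bup ε n ++ _) = _ ∨ mat _ (bup ε n ++ _) = _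
      rw [mat_append]
      exact mat_step h _ ih.1 _ hc
    · change cl _ (bup ε n ++ _) x = _
      rw [cl_append, ih.2]
      rw [step_up h hT _ ih.1 n _ hc (by rw [Int.even_iff]; omega)]
      · push_cast; rfl
      · intro v
        rw [← ih.2]
        exact hP.ne _ (cl_pos hP _ _ hx v)

theorem bdown_spec (h : IsQuiv arr ε) {P : F → Prop} (hP : IsPosCone P) (hT : IsT arr ε x T)
    (hx : ∀ v, P (x v)) (n : ℕ) :
    (mat (exMat arr) (bdown ε n) = exMat arr ∨
      mat (exMat arr) (bdown ε n) = fun i j => - exMat arr i j) ∧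
    cl (exMat arr) (bdown ε n) x = st ε T (-n) := by
  induction n with
  | zero =>
    have h0 := (bup_spec h hP hT hx 0).2
    refine ⟨Or.inl rfl, ?_⟩
    simpa [bup, bdown] using h0
  | succ n ih =>
    have hc : (((n : ℤ) + 1) % 2) = 0 ∨ (((n : ℤ) + 1) % 2) = 1 := by omega
    refine ⟨?_, ?_⟩
    · change mat _ (bdown ε n ++ _) = _ ∨ mat _ (bdown ε n ++ _) = _
      rw [mat_append]
      exact mat_step h _ ih.1 _ hc
    · change cl _ (bdown ε n ++ _) x = _
      rw [cl_append, ih.2]
      have e1 : -(n : ℤ) = -((n : ℤ) + 1) + 1 := by ring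
      rw [e1, step_down h hT _ ih.1 (-((n : ℤ) + 1)) _ hc (by rw [Int.even_iff]; omega)]
      · push_cast; rfl
      · intro v
        rw [← e1, ← ih.2]
        exact hP.ne _ (cl_pos hP _ _ hx v)

/-- The T-system values are cluster variables, with a universal path. -/
theorem belt (h : IsQuiv arr ε) {P : F → Prop} (hP : IsPosCone P) (t : ℤ) :
    ∃ q : List V, ∀ (x : V → F) (T : V → ℤ → F), IsT arr ε x T → (∀ v, P (x v)) →
      cl (exMat arr) q x = st ε T t := by
  rcases Int.eq_nat_or_neg t with ⟨n, rfl | rfl⟩
  · exact ⟨bup ε n, fun x T hT hx => (bup_spec h hP hT hx n).2⟩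
  · exact ⟨bdown ε n, fun x T hT hx => (bdown_spec h hP hT hx n).2⟩

end

end Pool.Agent.H28.Clu
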