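import Mathlib
import Pool.Agent.H28.Clu.TS
import Pool.Agent.H28.Clu.Transfer

namespace Pool.Agent.H28.Clu

section
variable {V : Type*} [Fintype V] [DecidableEq V] {F : Type*} [Field F]
variable {arr : V → V → Prop} [DecidableRel arr] {ε : V → ℤ}

/-- The right-hand side of the T-system relation. -/
def rhs (arr : V → V → Prop) [DecidableRel arr] (y : V → F) (v : V) : F :=
  ∏ u with arr u v, y u + ∏ w with arr v w, y w

/-- One step of the T-system: change the values of the vertices of colour `c`. -/
def flip (arr : V → V → Prop) [DecidableRel arr] (ε : V → ℤ) (c : ℤ) (y : V → F) : V → F :=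
  fun v => if ε v = c then rhs arr y v / y v else y v

omit [DecidableEq V] in
theorem rhs_congr (h : IsQuiv arr ε) (y y' : V → F) (v : V) (hy : ∀ u, ε u ≠ ε v → y u = y' u) :
    rhs arr y v = rhs arr y' v := by
  unfold rhs
  congr 1
  · exact Finset.prod_congr rfl fun u hu => hy u (h.bip _ _ (Finset.mem_filter.1 hu).2)
  · exact Finset.prod_congr rfl fun u hu => hy u (h.bip _ _ (Finset.mem_filter.1 hu).2).symm

omit [DecidableEq V] in
theorem rhs_pos {P : F → Prop} (hP : IsPosCone P) {y : V → F} (hy : ∀ v, P (y v)) (v : V) :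
    P (rhs arr y v) :=
  hP.add _ _ (hP.prod _ fun i _ => hy i) (hP.prod _ fun i _ => hy i)

omit [DecidableEq V] in
theorem flip_pos {P : F → Prop} (hP : IsPosCone P) (c : ℤ) {y : V → F} (hy : ∀ v, P (y v)) (v : V) :
    P (flip arr ε c y v) := by
  unfold flip
  split_ifs
  · rw [div_eq_mul_inv]; exact hP.mul _ _ (rhs_pos hP hy v) (hP.inv _ (hy v))
  · exact hy v

omit [DecidableEq V] in
theorem flip_flip (h : IsQuiv arr ε) {P : F → Prop} (hP : IsPosCone P) (c : ℤ) {y : V → F}
    (hy : ∀ v, P (y v)) : flip arr ε c (flip arr ε c y) = y := by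
  funext v
  by_cases hv : ε v = c
  · have h1 : rhs arr (flip arr ε c y) v = rhs arr y v := by
      refine rhs_congr h _ _ v fun u hu => ?_
      unfold flip
      rw [if_neg (by rw [← hv]; exact hu)]
    have h2 : flip arr ε c (flip arr ε c y) v = rhs arr (flip arr ε c y) v / flip arr ε c y v :=
      if_pos hv
    have h3 : flip arr ε c y v = rhs arr y v / y v := if_pos hv
    rw [h2, h1, h3, div_div_cancel₀ (hP.ne _ (rhs_pos hP hy v))]
  · have h2 : flip arr ε c (flip arr ε c y) v = flip arr ε c y v := if_neg hv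
    have h3 : flip arr ε c y v = y v := if_neg hv
    rw [h2, h3]

/-- The states at positive times. -/
def yup (arr : V → V → Prop) [DecidableRel arr] (ε : V → ℤ) (x : V → F) : ℕ → V → F
  | 0 => x
  | n + 1 => flip arr ε ((n : ℤ) % 2) (yup arr ε x n)

/-- The states at negative times. -/
def ydown (arr : V → V → Prop) [DecidableRel arr] (ε : V → ℤ) (x : V → F) : ℕ → V → F
  | 0 => x
  | n + 1 => flip arr ε (((n : ℤ) + 1) % 2) (ydown arr ε x n)

/-- The states. -/
def yy (arr : V → V → Prop) [DecidableRel arr] (ε : V → ℤ) (x : V → F) : ℤ → V → F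
  | Int.ofNat n => yup arr ε x n
  | Int.negSucc n => ydown arr ε x (n + 1)

omit [DecidableEq V] in
theorem ydown_pos {P : F → Prop} (hP : IsPosCone P) {x : V → F} (hx : ∀ v, P (x v)) (n : ℕ)
    (v : V) : P (ydown arr ε x n v) := by
  induction n generalizing v with
  | zero => exact hx v
  | succ n ih => exact flip_pos hP _ ih v

omit [DecidableEq V] in
theorem yup_pos {P : F → Prop} (hP : IsPosCone P) {x : V → F} (hx : ∀ v, P (x v)) (n : ℕ)
    (v : V) : P (yup arr ε x n v) := by
  induction n generalizing v with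
  | zero => exact hx v
  | succ n ih => exact flip_pos hP _ ih v

omit [DecidableEq V] in
theorem yy_pos {P : F → Prop} (hP : IsPosCone P) {x : V → F} (hx : ∀ v, P (x v)) (t : ℤ)
    (v : V) : P (yy arr ε x t v) := by
  cases t with
  | ofNat n => exact yup_pos hP hx n v
  | negSucc n => exact ydown_pos hP hx (n + 1) v

omit [DecidableEq V] in
theorem yy_succ (h : IsQuiv arr ε) {P : F → Prop} (hP : IsPosCone P) {x : V → F}
    (hx : ∀ v, P (x v)) (t : ℤ) : yy arr ε x (t + 1) = flip arr ε (t % 2) (yy arr ε x t) := by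
  cases t with
  | ofNat n => rfl
  | negSucc n =>
    have h1 : ∀ n : ℕ, yy arr ε x (Int.negSucc n + 1) = ydown arr ε x n := by
      intro n
      cases n with
      | zero => rfl
      | succ n => rfl
    have h2 : yy arr ε x (Int.negSucc n)
        = flip arr ε (((n : ℤ) + 1) % 2) (ydown arr ε x n) := rfl
    have h3 : (Int.negSucc n) % 2 = ((n : ℤ) + 1) % 2 := by
      rw [Int.negSucc_eq]; omega
    rw [h1, h2, h3, flip_flip h hP _ (ydown_pos hP hx n)]

omit [DecidableEq V] in
/-- The T-system has a solution. -/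
theorem exists_T (h : IsQuiv arr ε) {P : F → Prop} (hP : IsPosCone P) {x : V → F}
    (hx : ∀ v, P (x v)) : ∃ T : V → ℤ → F, IsT arr ε x T := by
  refine ⟨fun v t => yy arr ε x t v, ?_, ?_⟩
  · intro v
    rcases h.color v with hv | hv
    · rw [hv]; rfl
    · rw [hv]
      have h1 : yy arr ε x 1 = flip arr ε (0 % 2) (yy arr ε x 0) := yy_succ h hP hx 0
      have h2 : flip arr ε (0 % 2) (yy arr ε x 0) v = yy arr ε x 0 v := if_neg (by rw [hv]; decide)
      rw [h1, h2]; rfl
  · intro v t ht
    rw [Int.odd_iff] at ht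
    have h1 : yy arr ε x (t + 1) v = yy arr ε x t v := by
      rw [yy_succ h hP hx t]
      exact if_neg (by rcases h.color v with hv | hv <;> omega)
    have h2 : yy arr ε x t = flip arr ε ((t - 1) % 2) (yy arr ε x (t - 1)) := by
      have := yy_succ h hP hx (t - 1)
      rwa [sub_add_cancel] at this
    have h3 : yy arr ε x t v = rhs arr (yy arr ε x (t - 1)) v / yy arr ε x (t - 1) v := by
      rw [h2]
      exact if_pos (by rcases h.color v with hv | hv <;> omega)
    have h4 : rhs arr (yy arr ε x t) v = rhs arr (yy arr ε x (t - 1)) v := by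
      refine rhs_congr h _ _ v fun u hu => ?_
      rw [h2]
      exact if_neg (by
        rcases h.color v with hv | hv <;> rcases h.color u with hu' | hu' <;> omega)
    have h5 := hP.ne _ (yy_pos (arr := arr) (ε := ε) hP hx (t - 1) v)
    change yy arr ε x (t + 1) v * yy arr ε x (t - 1) v = rhs arr (yy arr ε x t) v
    rw [h1, h3, h4, div_mul_cancel₀ _ h5]

end

end Pool.Agent.H28.Clu
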