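import Mathlib

namespace Pool.Agent.H28.Clu

open Polynomial

section
variable {K : Type*} [Field K]

/-- The shift by `a` on two-sided sequences. -/
def sh (a : ℕ) : (ℤ → K) →ₗ[K] (ℤ → K) where
  toFun g := fun m => g (m + a)
  map_add' _ _ := rfl
  map_smul' _ _ := rfl

theorem sh_apply (a : ℕ) (g : ℤ → K) (m : ℤ) : sh a g m = g (m + a) := rfl

theorem sh_pow_apply (a k : ℕ) (g : ℤ → K) (m : ℤ) : (sh a ^ k) g m = g (m + a * k) := by
  induction k generalizing m with
  | zero => simp
  | succ k ih =>
    rw [pow_succ', Module.End.mul_apply, sh_apply, ih]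
    congr 1
    push_cast; ring

theorem aeval_sh_apply (a : ℕ) (P : K[X]) (g : ℤ → K) (m : ℤ) :
    aeval (sh a) P g m = ∑ k ∈ Finset.range (P.natDegree + 1), P.coeff k * g (m + a * k) := by
  rw [aeval_eq_sum_range, LinearMap.sum_apply, Finset.sum_apply]
  refine Finset.sum_congr rfl fun k _ => ?_
  rw [LinearMap.smul_apply, Pi.smul_apply, sh_pow_apply, smul_eq_mul]

/-- A two-sided solution of a recurrence is determined by its values on a block. -/
theorem eq_zero_of_block (a : ℕ) (ha : 0 < a) (P : K[X]) (hP : P.Monic) (h0 : P.coeff 0 ≠ 0)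
    (g : ℤ → K) (hg : aeval (sh a) P g = 0)
    (hb : ∀ i : ℕ, i < a * P.natDegree → g i = 0) : g = 0 := by
  set N := P.natDegree with hN
  have key : ∀ m : ℤ, ∑ k ∈ Finset.range (N + 1), P.coeff k * g (m + a * k) = 0 := fun m => by
    rw [← aeval_sh_apply, hg]; rfl
  have up : ∀ n : ℕ, g n = 0 := by
    intro n
    induction n using Nat.strong_induction_on with
    | _ n ih =>
      by_cases hn : n < a * N
      · exact hb n hn
      · have h := key ((n : ℤ) - a * N)
        rw [Finset.sum_range_succ] at h
        have h1 : ∑ k ∈ Finset.range N, P.coeff k * g ((n : ℤ) - a * N + a * k) = 0 := by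
          refine Finset.sum_eq_zero fun k hk => ?_
          have hk' := Finset.mem_range.1 hk
          have h2 : (n : ℤ) - a * N + a * k = ((n - a * (N - k) : ℕ) : ℤ) := by
            have h3 : a * (N - k) ≤ a * N := Nat.mul_le_mul_left _ (Nat.sub_le _ _)
            rw [Nat.cast_sub (by omega), Nat.cast_mul, Nat.cast_sub hk'.le]
            ring
          rw [h2, ih, mul_zero]
          have h3 : 0 < a * (N - k) := Nat.mul_pos ha (by omega)
          have h4 : a * (N - k) ≤ a * N := Nat.mul_le_mul_left _ (Nat.sub_le _ _)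
          omega
        rw [h1, zero_add, hN, Monic.coeff_natDegree hP, one_mul] at h
        rw [← h, ← hN]; congr 1; ring
  have down : ∀ n : ℕ, g (-(n : ℤ)) = 0 := by
    intro n
    induction n using Nat.strong_induction_on with
    | _ n ih =>
      have h := key (-(n : ℤ))
      rw [Finset.sum_range_succ'] at h
      have h1 : ∑ k ∈ Finset.range N, P.coeff (k + 1) * g (-(n : ℤ) + a * ((k + 1 : ℕ) : ℤ)) = 0 := by
        refine Finset.sum_eq_zero fun k _ => ?_
        have h3 : 0 < a * (k + 1) := Nat.mul_pos ha (Nat.succ_pos _)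
        rcases le_or_gt (a * (k + 1)) n with hle | hlt
        · have h2 : -(n : ℤ) + a * ((k + 1 : ℕ) : ℤ) = -((n - a * (k + 1) : ℕ) : ℤ) := by
            rw [Nat.cast_sub hle]; push_cast; ring
          rw [h2, ih _ (by omega), mul_zero]
        · have h2 : -(n : ℤ) + a * ((k + 1 : ℕ) : ℤ) = ((a * (k + 1) - n : ℕ) : ℤ) := by
            rw [Nat.cast_sub hlt.le]; push_cast; ring
          rw [h2, up, mul_zero]
      rw [h1, zero_add] at h
      have h5 := (mul_eq_zero.1 h).resolve_left h0
      simpa using h5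
  funext m
  rcases Int.eq_nat_or_neg m with ⟨n, rfl | rfl⟩
  · exact up n
  · exact down n

/-- **Fatou lemma** for two-sided sequences with values in a noetherian subring. -/
theorem fatou (R : Subring K) [IsNoetherianRing R] (a : ℕ) (ha : 0 < a) (τ : ℤ → K)
    (hτ : ∀ m, τ m ∈ R) (P : K[X]) (hP : P.Monic) (h0 : P.coeff 0 ≠ 0)
    (hPτ : aeval (sh a) P τ = 0) :
    ∃ f : R[X], f.Monic ∧ aeval (sh a) (f.map R.subtype) τ = 0 := by
  classical
  -- the `R`-module spanned by the shifts
  let W : Submodule R (ℤ → K) := Submodule.span R (Set.range fun n : ℕ => (sh a ^ n) τ)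
  let SR : (ℤ → K) →ₗ[R] (ℤ → K) := (sh a).restrictScalars R
  have hSW : ∀ g ∈ W, SR g ∈ W := by
    intro g hg
    refine Submodule.span_induction (p := fun g _ => SR g ∈ W) ?_ ?_ ?_ ?_ hg
    · rintro _ ⟨n, rfl⟩
      refine Submodule.subset_span ⟨n + 1, ?_⟩
      change (sh a ^ (n + 1)) τ = sh a ((sh a ^ n) τ)
      rw [pow_succ']; rfl
    · rw [map_zero]; exact W.zero_mem
    · intro x y _ _ hx hy; rw [map_add]; exact W.add_mem hx hy
    · intro r x _ hx; rw [map_smul]; exact W.smul_mem r hx
  have hWR : ∀ g ∈ W, ∀ m, g m ∈ R := by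
    intro g hg
    refine Submodule.span_induction (p := fun g _ => ∀ m, g m ∈ R) ?_ ?_ ?_ ?_ hg
    · rintro _ ⟨n, rfl⟩ m
      change (sh a ^ n) τ m ∈ R
      rw [sh_pow_apply]; exact hτ _
    · intro m; exact R.zero_mem
    · intro x y _ _ hx hy m; exact R.add_mem (hx m) (hy m)
    · intro r x _ hx m; exact R.mul_mem r.2 (hx m)
  have hWP : ∀ g ∈ W, aeval (sh a) P g = 0 := by
    intro g hg
    refine Submodule.span_induction (p := fun g _ => aeval (sh a) P g = 0) ?_ ?_ ?_ ?_ hg
    · rintro _ ⟨n, rfl⟩
      change aeval (sh a) P ((sh a ^ n) τ) = 0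
      have h1 : aeval (sh (K := K) a) P * (sh a) ^ n = (sh a) ^ n * aeval (sh a) P := by
        have h2 : (sh (K := K) a) ^ n = aeval (sh a) (X ^ n : K[X]) := by simp
        rw [h2, ← map_mul, ← map_mul, mul_comm]
      rw [← Module.End.mul_apply, h1, Module.End.mul_apply, hPτ, map_zero]
    · rw [map_zero]
    · intro x y _ _ hx hy; rw [map_add, hx, hy, add_zero]
    · intro r x _ hx
      have h3 : (r • x : ℤ → K) = (r : K) • x := rfl
      rw [h3, map_smul, hx, smul_zero]
  -- evaluation on a block
  let n := a * P.natDegree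
  let ev : W →ₗ[R] (Fin n → R) :=
    { toFun := fun g i => ⟨g.1 ((i : ℕ) : ℤ), hWR g.1 g.2 _⟩
      map_add' := fun g h => rfl
      map_smul' := fun r g => rfl }
  have hinj : Function.Injective ev := by
    rw [injective_iff_map_eq_zero]
    intro g hg
    apply Subtype.ext
    refine eq_zero_of_block a ha P hP h0 g.1 (hWP g.1 g.2) ?_
    intro i hi
    have := congrArg Subtype.val (congrFun hg ⟨i, hi⟩)
    exact this
  have : IsNoetherian R W := isNoetherian_of_injective ev hinj
  have : Module.Finite R W := inferInstance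
  obtain ⟨f, hf, hf0⟩ := LinearMap.exists_monic_and_aeval_eq_zero R (SR.restrict hSW)
  refine ⟨f, hf, ?_⟩
  have hτW : τ ∈ W := Submodule.subset_span ⟨0, by simp⟩
  have h5 : ∀ (q : R[X]) (g : W), ((aeval (SR.restrict hSW) q g : W) : ℤ → K)
      = aeval (sh a) (q.map R.subtype) g.1 := by
    intro q g
    induction q using Polynomial.induction_on' with
    | add p q hp hq =>
      rw [map_add, LinearMap.add_apply, Submodule.coe_add, hp, hq, Polynomial.map_add, map_add,
        LinearMap.add_apply]
    | monomial k r =>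
      rw [Polynomial.map_monomial, aeval_monomial, aeval_monomial, Module.End.mul_apply,
        Module.End.mul_apply, Module.algebraMap_end_apply, Module.algebraMap_end_apply]
      have h6 : ∀ k : ℕ, ∀ g : W, (((SR.restrict hSW) ^ k) g : W).1 = (sh a ^ k) g.1 := by
        intro k
        induction k with
        | zero => intro g; simp
        | succ k ih =>
          intro g
          rw [pow_succ, pow_succ, Module.End.mul_apply, Module.End.mul_apply, ih]
          rfl
      rw [Submodule.coe_smul, h6]
      rfl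
  have h7 := h5 f ⟨τ, hτW⟩
  rw [hf0] at h7
  rw [← h7]; rfl

end

end Pool.Agent.H28.Clu
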