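import Mathlib
import Pool.Agent.H28.Clu.TS
import Pool.Agent.H28.Clu.Closed
import Pool.Agent.H28.Clu.Fatou
import Pool.Agent.H28.Clu.Exist

namespace Pool.Agent.H28.Clu

open Polynomial

section ann
variable {K : Type*} [Field K]

theorem aeval_mul_sh (a : ℕ) (P Q : K[X]) (g : ℤ → K) :
    aeval (sh a) (P * Q) g = aeval (sh a) P (aeval (sh a) Q g) := by
  rw [map_mul, Module.End.mul_apply]

/-- The ideal of the polynomials in the shift which annihilate `τ`. -/
def annI (a : ℕ) (τ : ℤ → K) : Ideal K[X] where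
  carrier := {Q | aeval (sh a) Q τ = 0}
  add_mem' := by
    intro P Q hP hQ
    change aeval (sh a) (P + Q) τ = 0
    rw [map_add, LinearMap.add_apply, hP, hQ, add_zero]
  zero_mem' := by
    change aeval (sh a) (0 : K[X]) τ = 0
    rw [map_zero]; rfl
  smul_mem' := by
    intro P Q hQ
    change aeval (sh a) (P * Q) τ = 0
    rw [aeval_mul_sh, hQ, map_zero]

theorem exists_minpoly (a : ℕ) (τ : ℤ → K) (P : K[X]) (hP : P ≠ 0)
    (h : aeval (sh a) P τ = 0) :
    ∃ M : K[X], M.Monic ∧ ∀ Q : K[X], aeval (sh a) Q τ = 0 ↔ M ∣ Q := by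
  classical
  have h1 : annI a τ = Ideal.span {Submodule.IsPrincipal.generator (annI a τ)} :=
    (Ideal.span_singleton_generator _).symm
  set g := Submodule.IsPrincipal.generator (annI a τ) with hg
  have hg0 : g ≠ 0 := by
    intro h0
    have h2 : P ∈ annI a τ := h
    rw [h1, h0, Ideal.mem_span_singleton, zero_dvd_iff] at h2
    exact hP h2
  refine ⟨normalize g, Polynomial.monic_normalize hg0, fun Q => ?_⟩
  have h3 : aeval (sh a) Q τ = 0 ↔ Q ∈ annI a τ := Iff.rfl
  rw [h3, h1, Ideal.mem_span_singleton, normalize_dvd_iff]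

theorem aeval_sh_apply' (a : ℕ) (P : K[X]) (n : ℕ) (hn : P.natDegree ≤ n) (g : ℤ → K) (m : ℤ) :
    aeval (sh a) P g m = ∑ k ∈ Finset.range (n + 1), P.coeff k * g (m + a * k) := by
  rw [aeval_sh_apply]
  refine Finset.sum_subset (fun k hk => ?_) fun k _ hk => ?_
  · rw [Finset.mem_range] at hk ⊢; omega
  · rw [Finset.mem_range, not_lt] at hk
    rw [coeff_eq_zero_of_natDegree_lt (by omega), zero_mul]

theorem sum_reflect (n a : ℕ) (c : ℕ → K) (τ : ℤ → K) (m : ℤ) :
    ∑ k ∈ Finset.range (n + 1), c (n - k) * τ (m + a * ((n : ℤ) - k))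
      = ∑ j ∈ Finset.range (n + 1), c j * τ (m + a * j) := by
  rw [← Finset.sum_range_reflect (fun j => c j * τ (m + a * j))]
  refine Finset.sum_congr rfl fun k hk => ?_
  have hk' : k ≤ n := by rw [Finset.mem_range] at hk; omega
  have e : n + 1 - 1 - k = n - k := by omega
  rw [e, Nat.cast_sub hk']

/-- The polynomial with the given first coefficients. -/
noncomputable def pol (n : ℕ) (c : ℕ → K) : K[X] := ∑ j ∈ Finset.range (n + 1), monomial j (c j)

theorem pol_coeff (n : ℕ) (c : ℕ → K) (k : ℕ) : (pol n c).coeff k = if k ≤ n then c k else 0 := by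
  unfold pol
  rw [finsetSum_coeff]
  simp only [coeff_monomial]
  rw [Finset.sum_ite_eq']
  simp only [Finset.mem_range, Nat.lt_succ_iff]

theorem pol_natDegree_le (n : ℕ) (c : ℕ → K) : (pol n c).natDegree ≤ n := by
  rw [natDegree_le_iff_coeff_eq_zero]
  intro k hk
  rw [pol_coeff, if_neg (by omega)]

theorem pol_monic (n : ℕ) (c : ℕ → K) (h : c n = 1) : (pol n c).Monic :=
  monic_of_natDegree_le_of_coeff_eq_one n (pol_natDegree_le n c) (by
    rw [pol_coeff, if_pos le_rfl, h])

theorem pol_natDegree (n : ℕ) (c : ℕ → K) (h : c n = 1) : (pol n c).natDegree = n := by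
  refine le_antisymm (pol_natDegree_le n c) (le_natDegree_of_ne_zero ?_)
  rw [pol_coeff, if_pos le_rfl, h]; exact one_ne_zero

theorem aeval_pol (a n : ℕ) (c : ℕ → K) (τ : ℤ → K) (m : ℤ) :
    aeval (sh a) (pol n c) τ m = ∑ k ∈ Finset.range (n + 1), c k * τ (m + a * k) := by
  rw [aeval_sh_apply' a _ n (pol_natDegree_le n c)]
  refine Finset.sum_congr rfl fun k hk => ?_
  rw [pol_coeff, if_pos (by rw [Finset.mem_range] at hk; omega)]

/-- The inverse of the constant coefficient of the minimal polynomial. -/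
theorem inv_coeff_zero_mem (R : Subring K) [IsNoetherianRing R] (a : ℕ) (ha : 0 < a) (τ : ℤ → K)
    (hτ : ∀ m, τ m ∈ R) (M : K[X]) (hM : M.Monic)
    (hMd : ∀ Q : K[X], aeval (sh a) Q τ = 0 → M ∣ Q) (hMR : ∀ k, M.coeff k ∈ R)
    (P2 : K[X]) (hP2 : P2.Monic) (hP20 : P2.coeff 0 ≠ 0)
    (hP2τ : aeval (sh a) P2 (fun m => τ (-m)) = 0) : (M.coeff 0)⁻¹ ∈ R := by
  obtain ⟨f, hf, hfτ⟩ := fatou R a ha (fun m => τ (-m)) (fun m => hτ _) P2 hP2 hP20 hP2τ
  have h1 : aeval (sh a) (f.reverse.map R.subtype) τ = 0 := by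
    funext m
    have hd : (f.reverse.map R.subtype).natDegree ≤ f.natDegree :=
      (natDegree_map_le).trans (reverse_natDegree_le f)
    rw [aeval_sh_apply' a _ f.natDegree hd]
    have h2 := congrFun hfτ (-m - a * f.natDegree)
    rw [aeval_sh_apply' a _ f.natDegree natDegree_map_le] at h2
    have h3 := sum_reflect f.natDegree a (fun j => (f.reverse.map R.subtype).coeff j) τ m
    rw [← h3]
    refine Eq.trans (Finset.sum_congr rfl fun k hk => ?_) h2
    have hk' : k ≤ f.natDegree := by rw [Finset.mem_range] at hk; omega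
    rw [coeff_map, coeff_map, coeff_reverse, revAt_le (Nat.sub_le _ _), Nat.sub_sub_self hk']
    congr 2
    ring
  have hinj : Function.Injective R.subtype := Subtype.val_injective
  have hMl : M ∈ lifts R.subtype := by
    rw [lifts_iff_coeff_lifts]
    intro k
    exact ⟨⟨M.coeff k, hMR k⟩, rfl⟩
  obtain ⟨M0, hM0, -, hM0m⟩ := lifts_and_natDegree_eq_and_monic hMl hM
  have h4 := hMd _ h1
  rw [← hM0, map_dvd_map R.subtype hinj hM0m] at h4
  obtain ⟨q, hq⟩ := h4
  have h5 := congrArg (fun p => p.coeff 0) hq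
  simp only [coeff_zero_reverse, mul_coeff_zero] at h5
  rw [hf.leadingCoeff] at h5
  have h6 : M.coeff 0 * (q.coeff 0 : K) = 1 := by
    rw [← hM0, coeff_map]
    have := congrArg (Subtype.val) h5
    exact this.symm
  have h7 : (M.coeff 0)⁻¹ = (q.coeff 0 : K) := by
    have hne : M.coeff 0 ≠ 0 := by
      intro h0; rw [h0, zero_mul] at h6; exact zero_ne_one h6
    rw [← mul_one (M.coeff 0)⁻¹, ← h6, inv_mul_cancel_left₀ hne]
  rw [h7]
  exact (q.coeff 0).2

end ann

section
variable {V : Type*} [Fintype V] [DecidableEq V]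

variable {arr : V → V → Prop} [DecidableRel arr] {ε : V → ℤ} {T : V → ℤ → KK V}

theorem st_value (h : IsQuiv arr ε) (v : V) (m : ℤ) :
    st ε T (ε v + 2 * m) v = T v (ε v + 2 * m) := by
  unfold st
  rw [if_pos]
  rcases h.color v with hv | hv <;> rw [hv] <;> omega

/-- Ring endomorphisms which shift the initial values shift all the values. -/
theorem shift_values (h : IsQuiv arr ε) (hT : IsT arr ε (xx V) T) (s : ℤ) (hs : Even s)
    (σ : KK V →+* KK V) (hσ : ∀ v, σ (xx V v) = T v (s + ε v)) (v : V) (m : ℤ) :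
    σ (T v (ε v + 2 * m)) = T v (s + ε v + 2 * m) := by
  obtain ⟨q, hq⟩ := belt (arr := arr) h (isPosCone_K (V := V)) (ε v + 2 * m)
  have h1 := hq (xx V) T hT posK_xx
  have h2 : T v (ε v + 2 * m) = cl (exMat arr) q (xx V) v := by rw [h1, st_value h]
  rw [h2, ← map_cl]
  have hs2 : s % 2 = 0 := Int.even_iff.1 hs
  have hst : ∀ u, st ε T s u = T u (s + ε u) := by
    intro u
    unfold st
    rcases h.color u with hu | hu
    · rw [if_pos (by omega), hu, add_zero]
    · rw [if_neg (by omega), hu]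
  have hx' : (fun i => σ (xx V i)) = fun u => T u (s + ε u) := funext hσ
  rw [hx']
  obtain ⟨q', hq'⟩ := belt (arr := arr) h (isPosCone_K (V := V)) s
  have h3 := hq' (xx V) T hT posK_xx
  have hpos : ∀ u, PosK (T u (s + ε u)) := by
    intro u
    rw [← hst, ← h3]
    exact cl_pos isPosCone_K _ _ posK_xx u
  have hT' : IsT arr ε (fun u => T u (s + ε u)) (fun u t => T u (t + s)) := by
    refine ⟨fun u => by rw [add_comm], fun u t ht => ?_⟩
    have h4 := hT.rel u (t + s) (by
      have : t + s + ε u = (t + ε u) + s := by ring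
      rw [this]; exact ht.add_even hs)
    rw [show t + 1 + s = t + s + 1 by ring, show t - 1 + s = t + s - 1 by ring]
    exact h4
  rw [hq _ _ hT' hpos]
  unfold st
  rw [if_pos]
  · ring_nf
  · rcases h.color v with hv | hv <;> rw [hv] <;> omega

theorem main
    (LP : ∀ (B : V → V → ℤ), (∀ i j, B j i = - B i j) → ∀ (p : List V) (v : V),
      ∃ (P : MvPolynomial V ℤ) (e : V → ℕ), ∀ x : V → ℝ, (∀ i, 0 < x i) →
        cl B p x v * ∏ i, x i ^ e i = MvPolynomial.aeval x P)
    (h : IsQuiv arr ε) (hT : IsT arr ε (xx V) T) (v : V) (i N : ℕ) (J : ℕ → KK V)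
    (hJ : RecData ε T v i N J) (hmin : ∀ N' J', RecData ε T v i N' J' → N ≤ N') :
    ∀ k ≤ N + 1, J k ∈ upper (exMat arr) := by
  obtain ⟨a, ha⟩ := hJ.even
  have ha0 : 0 < a := by have := hJ.pos; omega
  set τ : ℤ → KK V := fun m => T v (ε v + 2 * m) with hτ
  have hB : ∀ i j, exMat arr j i = - exMat arr i j := exMat_skew arr
  have hpar : ∀ m : ℤ, Even (ε v + 2 * m + ε v) := fun m => ⟨ε v + m, by ring⟩
  -- values are in all Laurent rings
  have hmem : ∀ (p : List V) (m : ℤ), τ m ∈ laurent (cl (exMat arr) p (xx V)) := by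
    intro p m
    obtain ⟨q, hq⟩ := belt (arr := arr) h (isPosCone_K (V := V)) (ε v + 2 * m)
    have h1 := hq (xx V) T hT posK_xx
    have h2 : τ m = cl (exMat arr) q (xx V) v := by rw [h1, st_value h]
    rw [h2]
    exact cl_mem_laurent LP hB p q v
  have hτ0 : τ 0 ≠ 0 := by
    have : τ 0 = xx V v := by rw [hτ]; simp [hT.init]
    rw [this]
    exact isPosCone_K.ne _ (posK_xx v)
  -- the recurrence for `τ`
  have hrec : ∀ m : ℤ, ∑ k ∈ Finset.range (N + 2), (-1) ^ k * J k * τ (m + a * ((N : ℤ) + 1 - k))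
      = 0 := by
    intro m
    rw [← hJ.recur (ε v + 2 * m) (hpar m)]
    refine Finset.sum_congr rfl fun k _ => ?_
    rw [hτ]
    congr 2
    rw [ha]; push_cast; ring_nf
  -- the polynomial of the recurrence
  set P : (KK V)[X] := pol (N + 1) (fun j => (-1) ^ (N + 1 - j) * J (N + 1 - j)) with hP
  have hPm : P.Monic := pol_monic _ _ (by simp [hJ.first])
  have hPd : P.natDegree = N + 1 := pol_natDegree _ _ (by simp [hJ.first])
  have hP0 : P.coeff 0 = (-1) ^ (N + 1) := by
    rw [hP, pol_coeff, if_pos (Nat.zero_le _), Nat.sub_zero, hJ.last, mul_one]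
  have hP0' : P.coeff 0 ≠ 0 := by rw [hP0]; exact pow_ne_zero _ (by simp)
  have hPτ : aeval (sh a) P τ = 0 := by
    funext m
    rw [hP, aeval_pol, ← sum_reflect (N + 1) a _ τ m]
    rw [Pi.zero_apply, ← hrec m]
    refine Finset.sum_congr rfl fun k hk => ?_
    have hk' : k ≤ N + 1 := by rw [Finset.mem_range] at hk; omega
    simp only [Nat.sub_sub_self hk']
    push_cast
    rfl
  have hJP : ∀ k ≤ N + 1, J k = (-1) ^ k * P.coeff (N + 1 - k) := by
    intro k hk
    rw [hP, pol_coeff, if_pos (Nat.sub_le _ _)]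
    simp only [Nat.sub_sub_self hk]
    rw [← mul_assoc, ← mul_pow, neg_one_mul, neg_neg, one_pow, one_mul]
  obtain ⟨M, hM, hMd⟩ := exists_minpoly a τ P hPm.ne_zero hPτ
  have hMτ : aeval (sh a) M τ = 0 := (hMd M).2 dvd_rfl
  obtain ⟨P', hP'⟩ := (hMd P).1 hPτ
  have hM0 : M.coeff 0 ≠ 0 := by
    intro h0
    apply hP0'
    rw [hP', mul_coeff_zero, h0, zero_mul]
  -- coefficients in the Laurent rings
  have hMR : ∀ (p : List V) (k : ℕ), M.coeff k ∈ laurent (cl (exMat arr) p (xx V)) := by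
    intro p k
    have hno := noeth (cl (exMat arr) p (xx V))
    obtain ⟨f, hf, hfτ⟩ := fatou (laurent (cl (exMat arr) p (xx V))) a ha0 τ (hmem p) P hPm hP0' hPτ
    exact coeff_mem_of_dvd hB p f hf M hM ((hMd _).1 hfτ) k
  have hMinv : ∀ (p : List V), (M.coeff 0)⁻¹ ∈ laurent (cl (exMat arr) p (xx V)) := by
    intro p
    have hno := noeth (cl (exMat arr) p (xx V))
    refine inv_coeff_zero_mem (laurent (cl (exMat arr) p (xx V))) a ha0 τ (hmem p) M hM
      (fun Q hQ => (hMd Q).1 hQ) (hMR p)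
      (pol (N + 1) (fun j => (-1) ^ (N + 1) * ((-1) ^ j * J j))) (pol_monic _ _ ?_) ?_ ?_
    · rw [hJ.last, mul_one, ← mul_pow, neg_one_mul, neg_neg, one_pow]
    · rw [pol_coeff, if_pos (Nat.zero_le _), pow_zero, hJ.first, mul_one, mul_one]
      exact pow_ne_zero _ (by simp)
    · funext m
      rw [aeval_pol, Pi.zero_apply]
      have h2 := hrec (-m - a * (N + 1))
      rw [← mul_zero ((-1 : KK V) ^ (N + 1)), ← h2, Finset.mul_sum]
      refine Finset.sum_congr rfl fun k _ => ?_
      rw [mul_assoc ((-1 : KK V) ^ (N + 1))]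
      congr 3
      ring
  -- conserved
  have hMc : ∀ k, Conserved ε T (M.coeff k) := by
    intro k s hs σ hσ
    have h1 : aeval (sh a) (M.map σ) τ = 0 := by
      funext m
      obtain ⟨r, hr⟩ := hs
      have h2 := congrFun hMτ (m - r)
      rw [aeval_sh_apply' a _ M.natDegree le_rfl] at h2
      rw [aeval_sh_apply' a _ M.natDegree natDegree_map_le]
      have h3 := congrArg σ h2
      rw [map_sum] at h3
      rw [Pi.zero_apply, ← map_zero σ]
      refine Eq.trans (Finset.sum_congr rfl fun j _ => ?_) h3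
      rw [map_mul, coeff_map]
      congr 1
      have h4 := shift_values h hT s ⟨r, hr⟩ σ hσ v (m - r + a * j)
      have e1 : σ (τ (m - r + a * j)) = T v (s + ε v + 2 * (m - r + a * j)) := h4
      rw [e1]
      have e2 : τ (m + a * j) = T v (ε v + 2 * (m + a * j)) := rfl
      rw [e2]
      congr 1
      rw [hr]; ring
    have h2 : M ∣ M.map σ := (hMd _).1 h1
    have h3 : M = M.map σ := by
      refine (eq_of_monic_of_dvd_of_natDegree_le hM (hM.map σ) h2 ?_).symm
      exact natDegree_map_le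
    conv_rhs => rw [h3]
    rw [coeff_map]
  -- a recurrence of order `D + 1`
  set D := M.natDegree with hD
  set e : KK V := (-1) ^ D * (M.coeff 0)⁻¹ with he
  set Q : (KK V)[X] := M * (X - C e) with hQ
  have hQm : Q.Monic := hM.mul (monic_X_sub_C e)
  have hQd : Q.natDegree = D + 1 := by
    rw [hQ, hM.natDegree_mul (monic_X_sub_C e), natDegree_X_sub_C]
  have hQτ : aeval (sh a) Q τ = 0 := (hMd Q).2 ⟨_, rfl⟩
  have hc1 : ∀ F G : KK V, Conserved ε T F → Conserved ε T G → Conserved ε T (F * G) :=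
    fun F G hF hG s hs σ hσ => by rw [map_mul, hF s hs σ hσ, hG s hs σ hσ]
  have hc2 : ∀ F G : KK V, Conserved ε T F → Conserved ε T G → Conserved ε T (F + G) :=
    fun F G hF hG s hs σ hσ => by rw [map_add, hF s hs σ hσ, hG s hs σ hσ]
  have hc3 : ∀ F : KK V, Conserved ε T F → Conserved ε T F⁻¹ :=
    fun F hF s hs σ hσ => by rw [map_inv₀, hF s hs σ hσ]
  have hc4 : ∀ n : ℕ, Conserved ε T ((-1) ^ n) :=
    fun n s hs σ hσ => by rw [map_pow, map_neg, map_one]
  have hce : Conserved ε T (-e) := by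
    intro s hs σ hσ
    rw [map_neg, (hc1 _ _ (hc4 D) (hc3 _ (hMc 0))) s hs σ hσ]
  have hQc : ∀ k, Conserved ε T (Q.coeff k) := by
    intro k
    have h1 : Q = M * X + M * C (-e) := by rw [hQ, C_neg]; ring
    rw [h1, coeff_add, coeff_mul_C]
    cases k with
    | zero =>
      rw [mul_coeff_zero, coeff_X_zero, mul_zero, zero_add]
      exact hc1 _ _ (hMc _) hce
    | succ k =>
      rw [coeff_mul_X]
      exact hc2 _ _ (hMc _) (hc1 _ _ (hMc _) hce)
  have hQ0 : Q.coeff 0 = (-1) ^ (D + 1) := by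
    rw [hQ, mul_coeff_zero, coeff_sub, coeff_X_zero, coeff_C_zero, he, pow_succ]
    field_simp
    ring
  have hdata : RecData ε T v i D (fun k => (-1) ^ k * Q.coeff (D + 1 - k)) := by
    refine ⟨hJ.pos, hJ.even, ?_, ?_, ?_, ?_⟩
    · rw [pow_zero, one_mul, Nat.sub_zero, ← hQd]
      exact hQm.coeff_natDegree
    · rw [Nat.sub_self, hQ0, ← mul_pow, neg_one_mul, neg_neg, one_pow]
    · intro k _
      exact hc1 _ _ (hc4 k) (hQc _)
    · intro t ht
      obtain ⟨r, hr⟩ := ht
      have h1 := congrFun hQτ (r - ε v)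
      rw [aeval_sh_apply' a _ (D + 1) hQd.le, ← sum_reflect (D + 1) a _ τ] at h1
      refine Eq.trans (Finset.sum_congr rfl fun k _ => ?_) h1
      have h2 : ((-1 : KK V) ^ k * ((-1) ^ k * Q.coeff (D + 1 - k))) = Q.coeff (D + 1 - k) := by
        rw [← mul_assoc, ← mul_pow, neg_one_mul, neg_neg, one_pow, one_mul]
      rw [h2]
      congr 1
      rw [hτ]
      simp only
      congr 1
      rw [ha]; push_cast
      linear_combination hr
  have hND : N ≤ D := hmin D _ hdata
  have hP'm : P'.Monic := hM.of_mul_monic_left (by rw [← hP']; exact hPm)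
  have hdeg : N + 1 = D + P'.natDegree := by
    rw [← hPd, hP', hM.natDegree_mul hP'm]
  -- coefficients of `P'`
  have hP'R : ∀ (p : List V) (k : ℕ), P'.coeff k ∈ laurent (cl (exMat arr) p (xx V)) := by
    intro p k
    have h1 : P'.coeff 0 ∈ laurent (cl (exMat arr) p (xx V)) := by
      have h2 : M.coeff 0 * P'.coeff 0 = (-1) ^ (N + 1) := by
        rw [← mul_coeff_zero, ← hP', hP0]
      have h3 : P'.coeff 0 = (M.coeff 0)⁻¹ * (-1) ^ (N + 1) := by
        rw [← h2, inv_mul_cancel_left₀ hM0]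
      rw [h3]
      exact mul_mem (hMinv p) (pow_mem (neg_mem (one_mem _)) _)
    rcases Nat.lt_or_ge P'.natDegree 1 with hlt | hge
    · have h4 : P' = 1 := by
        apply hP'm.natDegree_eq_zero.1
        omega
      rw [h4, coeff_one]
      split_ifs
      · exact one_mem _
      · exact zero_mem _
    · have h5 : P'.natDegree = 1 := by omega
      cases k with
      | zero => exact h1
      | succ k =>
        cases k with
        | zero =>
          have h6 := hP'm.coeff_natDegree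
          rw [h5] at h6
          rw [h6]; exact one_mem _
        | succ k =>
          rw [coeff_eq_zero_of_natDegree_lt (by omega)]
          exact zero_mem _
  intro k hk
  unfold upper
  rw [Subring.mem_iInf]
  intro p
  rw [hJP k hk]
  refine mul_mem (pow_mem (neg_mem (one_mem _)) _) ?_
  rw [hP', coeff_mul]
  exact sum_mem fun x _ => mul_mem (hMR p _) (hP'R p _)

theorem st_eq (h : IsQuiv arr ε) (s : ℤ) (hs : Even s) :
    st ε T s = fun u => T u (s + ε u) := by
  rw [Int.even_iff] at hs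
  funext u
  unfold st
  rcases h.color u with hu | hu
  · rw [if_pos (by omega), hu, add_zero]
  · rw [if_neg (by omega), hu]

theorem exists_subst (h : IsQuiv arr ε) (hT : IsT arr ε (xx V) T) (s : ℤ) (hs : Even s) :
    ∃ σ : KK V →+* KK V, ∀ v, σ (xx V v) = T v (s + ε v) := by
  obtain ⟨q, hq⟩ := belt (arr := arr) h (isPosCone_K (V := V)) s
  refine ⟨subst (exMat_skew arr) q, fun v => ?_⟩
  rw [subst_xx, hq (xx V) T hT posK_xx, st_eq h s hs]

theorem full
    (LP : ∀ (B : V → V → ℤ), (∀ i j, B j i = - B i j) → ∀ (p : List V) (v : V),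
      ∃ (P : MvPolynomial V ℤ) (e : V → ℕ), ∀ x : V → ℝ, (∀ i, 0 < x i) →
        cl B p x v * ∏ i, x i ^ e i = MvPolynomial.aeval x P)
    (h : IsQuiv arr ε) :
    (∃ T, IsT arr ε (xx V) T) ∧ ∀ T, IsT arr ε (xx V) T →
      (∀ s : ℤ, Even s → ∃ σ : KK V →+* KK V, ∀ v, σ (xx V v) = T v (s + ε v)) ∧
      ∀ (v : V) (i N : ℕ) (J : ℕ → KK V), RecData ε T v i N J →
        (∀ N' J', RecData ε T v i N' J' → N ≤ N') → ∀ k ≤ N + 1,
          J k ∈ upper (exMat arr) ∧ ∀ s : ℤ, Even s → J k ∈ laurent (fun u => T u (s + ε u)) := by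
  refine ⟨exists_T h isPosCone_K posK_xx, fun T hT => ⟨fun s hs => exists_subst h hT s hs, ?_⟩⟩
  intro v i N J hJ hmin k hk
  have h1 := main LP h hT v i N J hJ hmin k hk
  refine ⟨h1, fun s hs => ?_⟩
  obtain ⟨q, hq⟩ := belt (arr := arr) h (isPosCone_K (V := V)) s
  have h2 := hq (xx V) T hT posK_xx
  rw [st_eq h s hs] at h2
  rw [← h2]
  unfold upper at h1
  exact Subring.mem_iInf.1 h1 q

end

end Pool.Agent.H28.Clu
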